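import Mathlib

set_option autoImplicit false

namespace Pool.Agent.P.MP_58cc54_co

open Finset

open Classical in
/-- number of solutions in an interval -/
noncomputable def cnt (Q : ℕ → Prop) (a l : ℕ) : ℕ := ((Ico a (a + l)).filter Q).card

lemma cnt_add (Q : ℕ → Prop) (a l m : ℕ) : cnt Q a (l + m) = cnt Q a l + cnt Q (a + l) m := by
  classical
  unfold cnt
  rw [← card_union_of_disjoint, ← filter_union, Ico_union_Ico_eq_Ico (by omega) (by omega),
    add_assoc]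
  exact disjoint_filter_filter (Ico_disjoint_Ico_consecutive _ _ _)

lemma cnt_period (Q : ℕ → Prop) (q : ℕ) (hQ : Function.Periodic Q q) (a : ℕ) :
    cnt Q a q = cnt Q 0 q := by
  classical
  unfold cnt
  have h1 := Nat.filter_Ico_card_eq_of_periodic a q Q hQ
  have h2 := Nat.filter_Ico_card_eq_of_periodic 0 q Q hQ
  convert h1.trans h2.symm

lemma cnt_mul (Q : ℕ → Prop) (q : ℕ) (hQ : Function.Periodic Q q) (c a : ℕ) :
    cnt Q a (c * q) = c * cnt Q 0 q := by
  induction c with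
  | zero => simp [cnt]
  | succ c ih => rw [add_mul, one_mul, cnt_add, ih, cnt_period Q q hQ (a + c * q)]; ring

lemma cnt_mono (Q : ℕ → Prop) (a l m : ℕ) (h : l ≤ m) : cnt Q a l ≤ cnt Q a m := by
  obtain ⟨d, rfl⟩ := Nat.exists_eq_add_of_le h
  rw [cnt_add]; omega

lemma cnt_approx (Q : ℕ → Prop) (q : ℕ) (hq : 0 < q) (hQ : Function.Periodic Q q) (a l : ℕ) :
    |(cnt Q a l : ℝ) - l * ((cnt Q 0 q : ℝ) / q)| ≤ cnt Q 0 q := by
  have h1 : (l / q) * cnt Q 0 q ≤ cnt Q a l := by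
    rw [← cnt_mul Q q hQ _ a]
    exact cnt_mono _ _ _ _ (Nat.div_mul_le_self _ _)
  have h2 : cnt Q a l ≤ (l / q + 1) * cnt Q 0 q := by
    rw [← cnt_mul Q q hQ _ a]
    refine cnt_mono _ _ _ _ ?_
    have := Nat.lt_div_mul_add hq (a := l)
    rw [add_mul]; omega
  have hq' : (0 : ℝ) < q := by exact_mod_cast hq
  have h3 : ((l / q : ℕ) : ℝ) ≤ (l : ℝ) / q := Nat.cast_div_le
  have h4 : (l : ℝ) / q ≤ ((l / q : ℕ) : ℝ) + 1 := by
    rw [div_le_iff₀ hq']
    have := Nat.lt_div_mul_add hq (a := l)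
    have : (l : ℝ) ≤ ((l / q : ℕ) : ℝ) * q + q := by exact_mod_cast this.le
    linarith
  have h1' : ((l / q : ℕ) : ℝ) * cnt Q 0 q ≤ cnt Q a l := by exact_mod_cast h1
  have h2' : (cnt Q a l : ℝ) ≤ (((l / q : ℕ) : ℝ) + 1) * cnt Q 0 q := by exact_mod_cast h2
  have hc : (0 : ℝ) ≤ cnt Q 0 q := Nat.cast_nonneg _
  have e : (l : ℝ) * ((cnt Q 0 q : ℝ) / q) = (l : ℝ) / q * cnt Q 0 q := by ring
  rw [e, abs_le]
  constructor <;> nlinarith

lemma periodic_iff_mod (Q : ℕ → Prop) (q : ℕ) (hQ : Function.Periodic Q q) (t : ℕ) :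
    Q (t % q) ↔ Q t := by
  have := hQ.nat_mul (t / q) (t % q)
  simp only [Nat.cast_id] at this
  rw [← this, mul_comm, Nat.mod_add_div]

lemma periodic_congr (Q : ℕ → Prop) (q : ℕ) (hQ : Function.Periodic Q q) (s t : ℕ)
    (h : s ≡ t [MOD q]) : Q s ↔ Q t := by
  rw [← periodic_iff_mod Q q hQ s, ← periodic_iff_mod Q q hQ t, h]

lemma cnt_crt (Q₁ Q₂ : ℕ → Prop) (a b : ℕ) (ha : 0 < a) (hb : 0 < b) (co : a.Coprime b)
    (h₁ : Function.Periodic Q₁ a) (h₂ : Function.Periodic Q₂ b) :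
    cnt (fun t => Q₁ t ∧ Q₂ t) 0 (a * b) = cnt Q₁ 0 a * cnt Q₂ 0 b := by
  classical
  unfold cnt
  rw [← card_product]
  refine card_nbij' (fun t => (t % a, t % b)) (fun y => (Nat.chineseRemainder co y.1 y.2 : ℕ))
    ?_ ?_ ?_ ?_
  · intro t ht
    simp only [coe_filter, mem_Ico, Set.mem_ofPred_eq, coe_product, Set.mem_prod] at ht ⊢
    refine ⟨⟨⟨by omega, by simpa using Nat.mod_lt _ ha⟩, ?_⟩, ⟨by omega, by simpa using Nat.mod_lt _ hb⟩, ?_⟩
    · exact (periodic_iff_mod Q₁ a h₁ t).2 ht.2.1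
    · exact (periodic_iff_mod Q₂ b h₂ t).2 ht.2.2
  · intro y hy
    simp only [coe_filter, mem_Ico, Set.mem_ofPred_eq, coe_product, Set.mem_prod] at hy ⊢
    refine ⟨⟨by omega, ?_⟩, ?_, ?_⟩
    · simpa using Nat.chineseRemainder_lt_mul co y.1 y.2 ha.ne' hb.ne'
    · exact (periodic_congr Q₁ a h₁ _ _ (Nat.chineseRemainder co y.1 y.2).2.1).2 hy.1.2
    · exact (periodic_congr Q₂ b h₂ _ _ (Nat.chineseRemainder co y.1 y.2).2.2).2 hy.2.2
  · intro t ht
    simp only [coe_filter, mem_Ico, Set.mem_ofPred_eq] at ht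
    have h1 : (Nat.chineseRemainder co (t % a) (t % b) : ℕ) ≡ t [MOD a] :=
      (Nat.chineseRemainder co (t % a) (t % b)).2.1.trans (Nat.mod_modEq _ _)
    have h2 : (Nat.chineseRemainder co (t % a) (t % b) : ℕ) ≡ t [MOD b] :=
      (Nat.chineseRemainder co (t % a) (t % b)).2.2.trans (Nat.mod_modEq _ _)
    have h3 := (Nat.modEq_and_modEq_iff_modEq_mul co).1 ⟨h1, h2⟩
    have h4 := Nat.chineseRemainder_lt_mul co (t % a) (t % b) ha.ne' hb.ne'
    exact Nat.ModEq.eq_of_lt_of_lt h3 h4 (by simpa using ht.1.2)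
  · intro y hy
    simp only [coe_filter, mem_Ico, Set.mem_ofPred_eq, coe_product, Set.mem_prod] at hy
    have h1 := (Nat.chineseRemainder co y.1 y.2).2.1
    have h2 := (Nat.chineseRemainder co y.1 y.2).2.2
    unfold Nat.ModEq at h1 h2
    ext
    · simp only; rw [h1, Nat.mod_eq_of_lt (by simpa using hy.1.1.2)]
    · simp only; rw [h2, Nat.mod_eq_of_lt (by simpa using hy.2.1.2)]

lemma periodic_of_dvd (Q : ℕ → Prop) (q m : ℕ) (hQ : Function.Periodic Q q) (h : q ∣ m) :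
    Function.Periodic Q m := by
  obtain ⟨c, rfl⟩ := h
  have := hQ.nat_mul c
  simpa [mul_comm] using this

lemma cnt_prod (U : Finset ℕ) (hU : ∀ p ∈ U, p.Prime) (Q : ℕ → ℕ → Prop)
    (hQ : ∀ p ∈ U, Function.Periodic (Q p) p) :
    Function.Periodic (fun t => ∀ p ∈ U, Q p t) (∏ p ∈ U, p) ∧
      cnt (fun t => ∀ p ∈ U, Q p t) 0 (∏ p ∈ U, p) = ∏ p ∈ U, cnt (Q p) 0 p := by
  constructor
  · intro t
    apply propext
    refine forall₂_congr fun p hp => ?_
    have := periodic_of_dvd (Q p) p _ (hQ p hp) (dvd_prod_of_mem (fun p => p) hp) t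
    rw [this]
  · induction U using Finset.induction_on with
    | empty => simp [cnt]
    | insert a U ha ih =>
      have hU' : ∀ p ∈ U, p.Prime := fun p hp => hU p (mem_insert_of_mem hp)
      have hQ' : ∀ p ∈ U, Function.Periodic (Q p) p := fun p hp => hQ p (mem_insert_of_mem hp)
      have hper : Function.Periodic (fun t => ∀ p ∈ U, Q p t) (∏ p ∈ U, p) := by
        intro t
        apply propext
        refine forall₂_congr fun p hp => ?_
        have := periodic_of_dvd (Q p) p _ (hQ' p hp) (dvd_prod_of_mem (fun p => p) hp) t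
        rw [this]
      rw [prod_insert ha, prod_insert ha, ← ih hU' hQ']
      have hpa := hU a (mem_insert_self _ _)
      rw [← cnt_crt (Q a) _ a _ hpa.pos (prod_pos fun p hp => (hU' p hp).pos) ?_
        (hQ a (mem_insert_self _ _)) hper]
      · congr 1
        ext t
        simp
      · refine Nat.Coprime.prod_right fun p hp => ?_
        refine (Nat.coprime_primes hpa (hU' p hp)).2 ?_
        rintro rfl
        exact ha hp

lemma cnt_prod_approx (U : Finset ℕ) (hU : ∀ p ∈ U, p.Prime) (Q : ℕ → ℕ → Prop)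
    (hQ : ∀ p ∈ U, Function.Periodic (Q p) p) (a l : ℕ) :
    |(cnt (fun t => ∀ p ∈ U, Q p t) a l : ℝ) - l * ∏ p ∈ U, ((cnt (Q p) 0 p : ℝ) / p)|
      ≤ ∏ p ∈ U, (cnt (Q p) 0 p : ℝ) := by
  obtain ⟨h1, h2⟩ := cnt_prod U hU Q hQ
  have := cnt_approx _ _ (prod_pos fun p hp => (hU p hp).pos) h1 a l
  rw [h2] at this
  rw [prod_div_distrib]
  simpa using this

end Pool.Agent.P.MP_58cc54_co
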