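import Mathlib

set_option autoImplicit false

namespace Pool.Agent.P.MP_58cc54_co

open Finset

/-- Avoider's graph is triangle free, and has degree at most one outside the closed set W -/
def Good {n : ℕ} (A : Finset (Sym2 (Fin n))) (W : Finset (Fin n)) : Prop :=
  (∀ u v, u ∈ W → s(u, v) ∈ A → v ∈ W) ∧
  (∀ v u w, v ∉ W → s(v, u) ∈ A → s(v, w) ∈ A → u = w) ∧
  (∀ x y z, x ≠ y → y ≠ z → x ≠ z → s(x, y) ∈ A → s(y, z) ∈ A → s(x, z) ∈ A → False)

lemma mem_insert_edge {n : ℕ} (A : Finset (Sym2 (Fin n))) (x y u v : Fin n) :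
    s(u, v) ∈ insert s(x, y) A ↔ (u = x ∧ v = y) ∨ (u = y ∧ v = x) ∨ s(u, v) ∈ A := by
  rw [mem_insert, Sym2.eq_iff, or_assoc]

lemma trifree_insert {n : ℕ} (A : Finset (Sym2 (Fin n))) (W : Finset (Fin n)) (hG : Good A W)
    (x y : Fin n) (hW : ¬ (x ∈ W ∧ y ∈ W)) :
    ∀ a b c, a ≠ b → b ≠ c → a ≠ c → s(a, b) ∈ insert s(x, y) A → s(b, c) ∈ insert s(x, y) A →
      s(a, c) ∈ insert s(x, y) A → False := by
  obtain ⟨h1, h2, h3⟩ := hG
  have hs : ∀ u v, s(u, v) ∈ A → s(v, u) ∈ A := fun u v h => by rwa [Sym2.eq_swap]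
  have key : ∀ v u w, u ≠ w → s(v, u) ∈ A → s(v, w) ∈ A → u ∈ W ∧ w ∈ W := by
    intro v u w huw hu hw
    have hv : v ∈ W := by
      by_contra hv
      exact huw (h2 v u w hv hu hw)
    exact ⟨h1 v u hv hu, h1 v w hv hw⟩
  intro a b c hab hbc hac e1 e2 e3
  rw [mem_insert_edge] at e1 e2 e3
  rcases e1 with ⟨rfl, rfl⟩ | ⟨rfl, rfl⟩ | e1
  · have e2' : s(b, c) ∈ A := by grind
    have e3' : s(a, c) ∈ A := by grind
    exact hW (key c a b hab (hs _ _ e3') (hs _ _ e2'))
  · have e2' : s(b, c) ∈ A := by grind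
    have e3' : s(a, c) ∈ A := by grind
    exact hW (key c b a hab.symm (hs _ _ e2') (hs _ _ e3'))
  · rcases e2 with ⟨rfl, rfl⟩ | ⟨rfl, rfl⟩ | e2
    · have e3' : s(a, c) ∈ A := by grind
      exact hW (key a b c hbc e1 e3')
    · have e3' : s(a, c) ∈ A := by grind
      exact hW (key a c b hbc.symm e3' e1)
    · rcases e3 with ⟨rfl, rfl⟩ | ⟨rfl, rfl⟩ | e3
      · exact hW (key b a c hac (hs _ _ e1) e2)
      · exact hW (key b c a hac.symm e2 (hs _ _ e1))
      · exact h3 a b c hab hbc hac e1 e2 e3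

lemma good_early {n : ℕ} (A : Finset (Sym2 (Fin n))) (hG : Good A ∅) (x y : Fin n) (hxy : x ≠ y)
    (hx : ∀ v, s(x, v) ∉ A) (hy : ∀ v, s(y, v) ∉ A) : Good (insert s(x, y) A) ∅ := by
  refine ⟨by simp, ?_, trifree_insert A ∅ hG x y (by simp)⟩
  intro v u w hv e1 e2
  rw [mem_insert_edge] at e1 e2
  have := hG.2.1 v u w hv
  grind

lemma good_late {n : ℕ} (A : Finset (Sym2 (Fin n))) (W : Finset (Fin n)) (hG : Good A W)
    (x y : Fin n) (hW : ¬ (x ∈ W ∧ y ∈ W)) :
    ∃ W' : Finset (Fin n), W'.card ≤ W.card + 4 ∧ Good (insert s(x, y) A) W' := by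
  have hs : ∀ u v, s(u, v) ∈ A → s(v, u) ∈ A := fun u v h => by rwa [Sym2.eq_swap]
  have nb : ∀ x : Fin n, ∃ x', (∀ v, x ∉ W → s(x, v) ∈ A → v = x') ∧ (x' = x ∨ s(x', x) ∈ A) := by
    intro x
    by_cases h : ∃ v, s(x, v) ∈ A
    · obtain ⟨v, hv⟩ := h
      exact ⟨v, fun u hx hu => hG.2.1 x u v hx hu hv, Or.inr (hs _ _ hv)⟩
    · exact ⟨x, fun v _ hv => (h ⟨v, hv⟩).elim, Or.inl rfl⟩
  obtain ⟨x', hx1, hx2⟩ := nb x
  obtain ⟨y', hy1, hy2⟩ := nb y
  refine ⟨W ∪ {x, y, x', y'}, ?_, ?_, ?_, trifree_insert A W hG x y hW⟩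
  · refine (card_union_le _ _).trans (Nat.add_le_add_left card_le_four _)
  · intro u v hu e
    rw [mem_insert_edge] at e
    simp only [mem_union, mem_insert, mem_singleton] at hu ⊢
    rcases e with ⟨rfl, rfl⟩ | ⟨rfl, rfl⟩ | e
    · simp
    · simp
    · by_cases huW : u ∈ W
      · exact Or.inl (hG.1 u v huW e)
      · have h1 := hG.2.1 u v x huW e
        have h2 := hG.2.1 u v y huW e
        have h3 := hx1 v
        have h4 := hy1 v
        grind
  · intro v u w hv e1 e2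
    rw [mem_insert_edge] at e1 e2
    simp only [mem_union, mem_insert, mem_singleton, not_or] at hv
    have := hG.2.1 v u w hv.1
    grind

lemma exists_edge_not_in {n : ℕ} (F : Finset (Sym2 (Fin n))) (V₁ V₂ : Finset (Fin n))
    (h : V₁.card * V₂.card < F.card) :
    ∃ x y, s(x, y) ∈ F ∧ ¬ (x ∈ V₁ ∧ y ∈ V₂) ∧ ¬ (y ∈ V₁ ∧ x ∈ V₂) := by
  have h1 : ((V₁ ×ˢ V₂).image (fun p => s(p.1, p.2))).card < F.card :=
    lt_of_le_of_lt (card_image_le.trans (by rw [card_product])) h
  obtain ⟨e, he, hn⟩ := exists_mem_notMem_of_card_lt_card h1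
  induction e using Sym2.ind with
  | h x y =>
    refine ⟨x, y, he, fun h => hn ?_, fun h => hn ?_⟩
    · exact mem_image.2 ⟨(x, y), mem_product.2 h, rfl⟩
    · exact mem_image.2 ⟨(y, x), mem_product.2 h, Sym2.eq_swap⟩

lemma game (n b Mv L : ℕ) (U : Finset (Sym2 (Fin n))) (hU : ∀ e ∈ U, ¬ e.IsDiag)
    (S : Set (Finset (Sym2 (Fin n)) × Finset (Sym2 (Fin n))))
    (h0 : ((∅ : Finset (Sym2 (Fin n))), (∅ : Finset (Sym2 (Fin n)))) ∈ S)
    (hS : ∀ p ∈ S, (U \ (p.1 ∪ p.2) = ∅ →
        (⊤ : SimpleGraph (Fin 3)).IsContained (SimpleGraph.fromEdgeSet (p.1 : Set (Sym2 (Fin n))))) ∧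
      ∀ e ∈ U \ (p.1 ∪ p.2), ∃ T : Finset (Sym2 (Fin n)), T ⊆ U \ (insert e (p.1 ∪ p.2)) ∧
        T.card = min b (U \ (insert e (p.1 ∪ p.2))).card ∧ (insert e p.1, p.2 ∪ T) ∈ S)
    (hM : U.card ≤ Mv * (b + 1)) (hL : 2 * Mv * n ≤ L * (b + 1)) :
    ∃ m r, U.card = m * (b + 1) + r ∧ 1 ≤ r ∧ r ≤ (4 * L) ^ 2 := by
  by_contra hno
  have main : ∀ (c : ℕ) (A E : Finset (Sym2 (Fin n))) (l : ℕ) (W : Finset (Fin n)),
      (U \ (A ∪ E)).card = c → (A, E) ∈ S → (c ≠ 0 → c + A.card * (b + 1) = U.card) →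
      (c ≠ 0 → l = 0 ∨ l * (b + 1) + c ≤ 2 * Mv * n) → W.card ≤ 4 * l → Good A W → False := by
    intro c
    induction c using Nat.strong_induction_on with
    | _ c ih =>
      intro A E l W hc hAE h1 h2 hW hG
      obtain ⟨hS1, hS2⟩ := hS (A, E) hAE
      simp only at hS1 hS2
      by_cases hc0 : c = 0
      · obtain ⟨f⟩ := hS1 (card_eq_zero.1 (hc.trans hc0))
        have a1 := f.toHom.map_adj (show (⊤ : SimpleGraph (Fin 3)).Adj 0 1 by decide)
        have a2 := f.toHom.map_adj (show (⊤ : SimpleGraph (Fin 3)).Adj 1 2 by decide)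
        have a3 := f.toHom.map_adj (show (⊤ : SimpleGraph (Fin 3)).Adj 0 2 by decide)
        rw [SimpleGraph.fromEdgeSet_adj] at a1 a2 a3
        exact hG.2.2 _ _ _ a1.2 a2.2 a3.2 a1.1 a2.1 a3.1
      have h1' := h1 hc0
      have h2' := h2 hc0
      -- a generic move
      have move : ∀ (e : Sym2 (Fin n)) (l' : ℕ) (W' : Finset (Fin n)), e ∈ U \ (A ∪ E) →
          (l' = 0 ∨ l' * (b + 1) + c ≤ 2 * Mv * n + (b + 1)) → W'.card ≤ 4 * l' →
          Good (insert e A) W' → False := by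
        intro e l' W' he h3 hW' hG'
        obtain ⟨T, hT1, hT2, hT3⟩ := hS2 e he
        have e1 : U \ (insert e (A ∪ E)) = (U \ (A ∪ E)).erase e := by
          ext f; simp only [mem_sdiff, mem_insert, mem_erase]; tauto
        have e2 : U \ (insert e A ∪ (E ∪ T)) = (U \ (insert e (A ∪ E))) \ T := by
          ext f; simp only [mem_sdiff, mem_insert, mem_union]; tauto
        have c1 : (U \ (insert e (A ∪ E))).card = c - 1 := by
          rw [e1, card_erase_of_mem he, hc]
        have c2 : (U \ (insert e A ∪ (E ∪ T))).card = c - 1 - min b (c - 1) := by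
          rw [e2, card_sdiff_of_subset hT1, hT2, c1]
        have heA : e ∉ A := fun h => (mem_sdiff.1 he).2 (mem_union_left _ h)
        refine ih _ (by omega) (insert e A) (E ∪ T) l' W' c2 hT3 ?_ ?_ hW' hG'
        · intro h
          rw [card_insert_of_notMem heA, add_mul]
          omega
        · intro h
          omega
      by_cases hbig : 2 * Mv * n < c
      · have hl : l = 0 := by omega
        have hWe : W = ∅ := card_eq_zero.1 (by omega)
        subst hWe
        have hA : A.card ≤ Mv := by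
          by_contra hlt
          have : Mv * (b + 1) ≤ A.card * (b + 1) := Nat.mul_le_mul_right _ (by omega)
          omega
        let V : Finset (Fin n) := A.biUnion Sym2.toFinset
        have hV : V.card ≤ 2 * Mv := by
          refine card_biUnion_le.trans ?_
          refine (sum_le_sum (g := fun _ => 2) fun e _ => ?_).trans ?_
          · rw [Sym2.card_toFinset]; split_ifs <;> omega
          · simp; omega
        obtain ⟨x, y, he, hx, hy⟩ := exists_edge_not_in (U \ (A ∪ E)) V univ (by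
          rw [hc, card_univ, Fintype.card_fin]
          exact lt_of_le_of_lt (Nat.mul_le_mul_right _ hV) hbig)
        have hxy : x ≠ y := by
          have := hU _ (mem_sdiff.1 he).1
          simpa using this
        refine move s(x, y) 0 ∅ he (Or.inl rfl) (by simp) (good_early A hG x y hxy ?_ ?_)
        · intro v hv
          exact hx ⟨mem_biUnion.2 ⟨_, hv, by simp⟩, mem_univ _⟩
        · intro v hv
          exact hy ⟨mem_biUnion.2 ⟨_, hv, by simp⟩, mem_univ _⟩
      · have hl : l ≤ L := by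
          rcases h2' with h | h
          · omega
          · by_contra hlt
            have : L * (b + 1) ≤ l * (b + 1) := Nat.mul_le_mul_right _ (by omega)
            omega
        by_cases hsmall : c ≤ (4 * L) ^ 2
        · exact hno ⟨A.card, c, by omega, by omega, hsmall⟩
        obtain ⟨x, y, he, hx, _⟩ := exists_edge_not_in (U \ (A ∪ E)) W W (by
          rw [hc]
          have : W.card ≤ 4 * L := by omega
          have := Nat.mul_le_mul this this
          nlinarith)
        obtain ⟨W', hW', hG'⟩ := good_late A W hG x y hx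
        refine move s(x, y) (l + 1) W' he (Or.inr ?_) (by omega) hG'
        rw [add_mul]
        rcases h2' with h | h
        · subst h; omega
        · omega
  refine main _ ∅ ∅ 0 ∅ rfl h0 (by simp) (by simp) (by simp) ⟨by simp, by simp, by simp⟩

end Pool.Agent.P.MP_58cc54_co
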