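import Mathlib
import Pool.Agent.P.MP_58cc54_co.Count

set_option autoImplicit false

namespace Pool.Agent.P.MP_58cc54_co

open Finset

/-- the quadratic polynomial n (n - 1) - 2 r at n = M t -/
def fq (M r t : ℕ) : ℤ := (M * t) * (M * t - 1) - 2 * r

lemma fq_periodic (M r q : ℕ) : Function.Periodic (fun t => (q : ℤ) ∣ fq M r t) q := by
  intro t
  apply propext
  have : fq M r (t + q) = fq M r t + q * (M * (M * (2 * t + q) - 1)) := by
    unfold fq; push_cast; ring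
  simp only
  rw [this]
  exact (dvd_add_left (dvd_mul_right _ _))

lemma fq_sub (M r s t : ℕ) :
    fq M r s - fq M r t = M * (((s : ℤ) - t) * (M * (s + t) - 1)) := by
  unfold fq; ring

lemma two_roots (M r q : ℕ) (hc : Nat.Coprime q M)
    (hd : ∀ s t : ℕ, (q : ℤ) ∣ fq M r s → (q : ℤ) ∣ fq M r t →
      (q : ℤ) ∣ (s : ℤ) - t ∨ (q : ℤ) ∣ M * ((s : ℤ) + t) - 1) :
    cnt (fun t => (q : ℤ) ∣ fq M r t) 0 q ≤ 2 := by
  classical
  by_contra hlt
  push Not at hlt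
  unfold cnt at hlt
  obtain ⟨a, ha, b, hb, c, hc', hab, hac, hbc⟩ := two_lt_card.1 hlt
  simp only [mem_filter, mem_Ico, zero_add] at ha hb hc'
  have key : ∀ s t : ℕ, s < q → t < q → (q : ℤ) ∣ (s : ℤ) - t → s = t := by
    intro s t hs ht h
    have := (Nat.modEq_iff_dvd (n := q) (a := t) (b := s)).2 h
    exact (Nat.ModEq.eq_of_lt_of_lt this ht hs).symm
  have h1 := (hd a b ha.2 hb.2).resolve_left fun h => hab (key _ _ ha.1.2 hb.1.2 h)
  have h2 := (hd a c ha.2 hc'.2).resolve_left fun h => hac (key _ _ ha.1.2 hc'.1.2 h)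
  have h3 : (q : ℤ) ∣ M * ((b : ℤ) - c) := by
    have := dvd_sub h1 h2
    have e : (M : ℤ) * ((a : ℤ) + b) - 1 - (M * ((a : ℤ) + c) - 1) = M * ((b : ℤ) - c) := by ring
    rwa [e] at this
  have h4 : (q : ℤ) ∣ (b : ℤ) - c :=
    (Nat.isCoprime_iff_coprime.2 hc).dvd_of_dvd_mul_left h3
  exact hbc (key _ _ hb.1.2 hc'.1.2 h4)

lemma roots_prime (M r p : ℕ) (hp : p.Prime) (hM : ¬ p ∣ M) :
    cnt (fun t => (p : ℤ) ∣ fq M r t) 0 p ≤ 2 := by
  have hc : Nat.Coprime p M := (Nat.Prime.coprime_iff_not_dvd hp).2 hM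
  refine two_roots M r p hc fun s t hs ht => ?_
  have h1 := dvd_sub hs ht
  rw [fq_sub] at h1
  have h2 := (Nat.isCoprime_iff_coprime.2 hc).dvd_of_dvd_mul_left h1
  exact (Nat.prime_iff_prime_int.1 hp).dvd_or_dvd h2

lemma roots_sq (M r p : ℕ) (hp : p.Prime) (hM : ¬ p ∣ M) (hr : 8 * r + 1 < p) :
    cnt (fun t => ((p ^ 2 : ℕ) : ℤ) ∣ fq M r t) 0 (p ^ 2) ≤ 2 := by
  have hc : Nat.Coprime p M := (Nat.Prime.coprime_iff_not_dvd hp).2 hM
  have hc2 : Nat.Coprime (p ^ 2) M := Nat.Coprime.pow_left 2 hc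
  refine two_roots M r (p ^ 2) hc2 fun s t hs ht => ?_
  have h1 := dvd_sub hs ht
  rw [fq_sub] at h1
  have h2 := (Nat.isCoprime_iff_coprime.2 hc2).dvd_of_dvd_mul_left h1
  have hpi := Nat.prime_iff_prime_int.1 hp
  push_cast at h2 hs ht ⊢
  by_cases ha : (p : ℤ) ∣ (s : ℤ) - t
  · by_cases hb : (p : ℤ) ∣ M * ((s : ℤ) + t) - 1
    · exfalso
      have h3 : (p : ℤ) ∣ 2 * M * t - 1 := by
        have := dvd_sub hb (Dvd.dvd.mul_left ha M)
        have e : (M : ℤ) * ((s : ℤ) + t) - 1 - M * ((s : ℤ) - t) = 2 * M * t - 1 := by ring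
        rwa [e] at this
      have h4 : (p : ℤ) ∣ fq M r t := (dvd_pow_self _ two_ne_zero).trans ht
      have h5 : (p : ℤ) ∣ ((8 * r + 1 : ℕ) : ℤ) := by
        have := dvd_sub (Dvd.dvd.mul_left h3 (2 * M * t - 1)) (Dvd.dvd.mul_left h4 4)
        have e : (2 * (M : ℤ) * t - 1) * (2 * M * t - 1) - 4 * fq M r t = ((8 * r + 1 : ℕ) : ℤ) := by
          unfold fq; push_cast; ring
        rwa [e] at this
      have h6 := Nat.le_of_dvd (by omega) (Int.natCast_dvd_natCast.1 h5)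
      omega
    · left
      have : IsCoprime ((p : ℤ) ^ 2) (M * ((s : ℤ) + t) - 1) :=
        IsCoprime.pow_left ((Prime.coprime_iff_not_dvd hpi).2 hb)
      exact this.dvd_of_dvd_mul_right h2
  · right
    have : IsCoprime ((p : ℤ) ^ 2) ((s : ℤ) - t) :=
      IsCoprime.pow_left ((Prime.coprime_iff_not_dvd hpi).2 ha)
    exact this.dvd_of_dvd_mul_left h2

lemma cnt_le_sum {ι : Type} (A : Finset ι) (Q : ℕ → Prop) (R : ι → ℕ → Prop) (a l : ℕ)
    (h : ∀ t, a ≤ t → t < a + l → Q t → ∃ i ∈ A, R i t) :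
    cnt Q a l ≤ ∑ i ∈ A, cnt (R i) a l := by
  classical
  unfold cnt
  refine le_trans (card_le_card ?_) card_biUnion_le
  intro t ht
  simp only [mem_filter, mem_Ico, mem_biUnion] at ht ⊢
  obtain ⟨i, hi, hR⟩ := h t ht.1.1 ht.1.2 ht.2
  exact ⟨i, hi, ht.1, hR⟩

lemma cnt_or_le (Q R S : ℕ → Prop) (a l : ℕ)
    (h : ∀ t, a ≤ t → t < a + l → Q t → R t ∨ S t) :
    cnt Q a l ≤ cnt R a l + cnt S a l := by
  classical
  unfold cnt
  refine le_trans (card_le_card ?_) (card_union_le _ _)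
  intro t ht
  simp only [mem_filter, mem_Ico, mem_union] at ht ⊢
  rcases h t ht.1.1 ht.1.2 ht.2 with h | h
  exacts [Or.inl ⟨ht.1, h⟩, Or.inr ⟨ht.1, h⟩]

end Pool.Agent.P.MP_58cc54_co
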