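import Mathlib

set_option autoImplicit false

namespace Pool.Agent.P.MP_58cc54_co

open Finset

/-- primes in the interval (2^i, 2^j] -/
def PR (i j : ℕ) : Finset ℕ := (Ioc (2 ^ i) (2 ^ j)).filter Nat.Prime

lemma mem_PR {i j p : ℕ} : p ∈ PR i j ↔ 2 ^ i < p ∧ p ≤ 2 ^ j ∧ p.Prime := by
  simp [PR, and_assoc]

lemma card_block (i : ℕ) : i * (PR i (i + 1)).card ≤ 4 * 2 ^ i := by
  have h1 : (2 ^ i) ^ (PR i (i + 1)).card ≤ ∏ p ∈ PR i (i + 1), p := by
    rw [← prod_const]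
    exact prod_le_prod' fun p hp => (mem_PR.1 hp).1.le
  have h2 : ∏ p ∈ PR i (i + 1), p ≤ primorial (2 ^ (i + 1)) := by
    unfold primorial
    refine prod_le_prod_of_subset_of_one_le' ?_ ?_
    · intro p hp
      rw [mem_PR] at hp
      simp only [mem_filter, mem_range]
      exact ⟨by omega, hp.2.2⟩
    · intro p hp _
      exact (mem_filter.1 hp).2.one_le
  have h3 := primorial_le_four_pow (2 ^ (i + 1))
  have h4 : 2 ^ (i * (PR i (i + 1)).card) ≤ 2 ^ (4 * 2 ^ i) := by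
    calc 2 ^ (i * (PR i (i + 1)).card) = (2 ^ i) ^ (PR i (i + 1)).card := by rw [pow_mul]
      _ ≤ 4 ^ 2 ^ (i + 1) := h1.trans (h2.trans h3)
      _ = 2 ^ (4 * 2 ^ i) := by
        rw [show (4 : ℕ) = 2 ^ 2 by norm_num, ← pow_mul]
        congr 1
        ring
  exact (Nat.pow_le_pow_iff_right (by norm_num)).1 h4

lemma sum_block (i : ℕ) (hi : 1 ≤ i) : ∑ p ∈ PR i (i + 1), (1 : ℝ) / p ≤ 4 / i := by
  have h1 : ∑ p ∈ PR i (i + 1), (1 : ℝ) / p ≤ ∑ p ∈ PR i (i + 1), (1 : ℝ) / 2 ^ i := by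
    refine sum_le_sum fun p hp => ?_
    have : ((2 : ℝ) ^ i) ≤ p := by exact_mod_cast (mem_PR.1 hp).1.le
    exact one_div_le_one_div_of_le (by positivity) this
  refine h1.trans ?_
  rw [sum_const, nsmul_eq_mul]
  have h2 : (i : ℝ) * (PR i (i + 1)).card ≤ 4 * 2 ^ i := by exact_mod_cast card_block i
  have hi' : (0 : ℝ) < i := by exact_mod_cast hi
  rw [mul_one_div, div_le_div_iff₀ (by positivity) hi']
  linarith

lemma PR_succ (i j : ℕ) : PR i (j + 1) ⊆ PR i j ∪ PR j (j + 1) := by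
  intro p hp
  rw [mem_union, mem_PR, mem_PR]
  rw [mem_PR] at hp
  by_cases h : p ≤ 2 ^ j
  · exact Or.inl ⟨hp.1, h, hp.2.2⟩
  · exact Or.inr ⟨by omega, hp.2.1, hp.2.2⟩

lemma sum_PR (i j : ℕ) (hi : 1 ≤ i) (h : i ≤ j) :
    ∑ p ∈ PR i j, (1 : ℝ) / p ≤ ∑ l ∈ Ico i j, (4 : ℝ) / l := by
  induction j, h using Nat.le_induction with
  | base => simp [PR]
  | succ j hj ih =>
    rw [sum_Ico_succ_top hj]
    refine (sum_le_sum_of_subset_of_nonneg (PR_succ i j) (fun _ _ _ => by positivity)).trans ?_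
    have h1 := sum_union_inter (s₁ := PR i j) (s₂ := PR j (j + 1)) (f := fun p : ℕ => (1 : ℝ) / p)
    have h2 : 0 ≤ ∑ p ∈ PR i j ∩ PR j (j + 1), (1 : ℝ) / p := sum_nonneg fun _ _ => by positivity
    have h3 := sum_block j (by omega)
    linarith

lemma sum_inv_le_log (i j : ℕ) (hi : 1 ≤ i) (h : i ≤ j) :
    ∑ l ∈ Ico i j, (4 : ℝ) / l ≤ 8 * (Real.log j - Real.log i) := by
  induction j, h using Nat.le_induction with
  | base => simp
  | succ j hj ih =>
    rw [sum_Ico_succ_top hj]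
    have hj' : (1 : ℝ) ≤ j := by exact_mod_cast (hi.trans hj)
    have h1 : Real.log (j / (j + 1)) ≤ j / (j + 1) - 1 := Real.log_le_sub_one_of_pos (by positivity)
    rw [Real.log_div (by positivity) (by positivity)] at h1
    have h2 : (j : ℝ) / (j + 1) - 1 = -(1 / (j + 1)) := by field_simp; ring
    have h3 : (4 : ℝ) / j ≤ 8 * (1 / (j + 1)) := by
      rw [mul_one_div, div_le_div_iff₀ (by positivity) (by positivity)]
      linarith
    push_cast
    linarith

lemma exp_sum_PR (i j c : ℕ) (hi : 1 ≤ i) (h : i ≤ j) :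
    Real.exp (c * ∑ p ∈ PR i j, (1 : ℝ) / p) ≤ ((j : ℝ) / i) ^ (8 * c) := by
  have h1 := (sum_PR i j hi h).trans (sum_inv_le_log i j hi h)
  have hi' : (0 : ℝ) < i := by exact_mod_cast hi
  have hj' : (0 : ℝ) < j := by exact_mod_cast (hi.trans h)
  rw [← Real.log_div hj'.ne' hi'.ne'] at h1
  calc Real.exp (c * ∑ p ∈ PR i j, (1 : ℝ) / p) ≤ Real.exp ((8 * c : ℕ) * Real.log (j / i)) := by
        apply Real.exp_le_exp.2
        have := mul_le_mul_of_nonneg_left h1 (Nat.cast_nonneg (α := ℝ) c)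
        push_cast
        linarith
    _ = ((j : ℝ) / i) ^ (8 * c) := by
        rw [Real.exp_nat_mul, Real.exp_log (by positivity)]

lemma sum_short (j b : ℕ) (hj : 1 ≤ j) (A : Finset ℕ) (hA : ∀ p ∈ A, p.Prime ∧ 2 ^ j < p)
    (hAA : ∀ p ∈ A, ∀ q ∈ A, p ≤ 2 ^ b * q) :
    ∑ p ∈ A, (1 : ℝ) / p ≤ 4 * (b + 1) / j := by
  rcases A.eq_empty_or_nonempty with rfl | hne
  · simp; positivity
  have hm := A.min'_mem hne
  set q := A.min' hne with hq
  have hq2 := (hA q hm).2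
  set i := Nat.log 2 (q - 1) with hi
  have hq1 : q - 1 ≠ 0 := by
    have : 1 ≤ 2 ^ j := Nat.one_le_two_pow
    omega
  have hi1 : 2 ^ i ≤ q - 1 := Nat.pow_log_le_self 2 hq1
  have hi2 : q - 1 < 2 ^ (i + 1) := Nat.lt_pow_succ_log_self (by norm_num) _
  have hji : j ≤ i := by
    rw [hi]
    exact Nat.le_log_of_pow_le (by norm_num) (by omega)
  have hsub : A ⊆ PR i (i + (b + 1)) := by
    intro p hp
    rw [mem_PR]
    refine ⟨?_, ?_, (hA p hp).1⟩
    · have := A.min'_le p hp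
      omega
    · calc p ≤ 2 ^ b * q := hAA p hp q hm
        _ ≤ 2 ^ b * 2 ^ (i + 1) := Nat.mul_le_mul_left _ (by omega)
        _ = 2 ^ (i + (b + 1)) := by ring
  refine (sum_le_sum_of_subset_of_nonneg hsub (fun _ _ _ => by positivity)).trans ?_
  refine (sum_PR i _ (by omega) (by omega)).trans ?_
  have hj' : (0 : ℝ) < j := by exact_mod_cast hj
  have : ∑ l ∈ Ico i (i + (b + 1)), (4 : ℝ) / l ≤ ∑ l ∈ Ico i (i + (b + 1)), (4 : ℝ) / j := by
    refine sum_le_sum fun l hl => ?_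
    have : (j : ℝ) ≤ l := by exact_mod_cast hji.trans (mem_Ico.1 hl).1
    exact div_le_div_of_nonneg_left (by norm_num) hj' this
  refine this.trans (le_of_eq ?_)
  rw [sum_const, Nat.card_Ico, nsmul_eq_mul, Nat.add_sub_cancel_left]
  push_cast
  ring

/-- the family of sets of large primes whose product is close to 2^J -/
def fam (j J a : ℕ) : Finset (Finset ℕ) :=
  (PR j (J + a)).powerset.filter fun T => 2 ^ J ≤ 2 ^ a * ∏ p ∈ T, p ∧ ∏ p ∈ T, p ≤ 2 ^ a * 2 ^ J

lemma sigma_bound (j J a : ℕ) (hj : 1 ≤ j) (hjJ : j ≤ J + a) (haJ : a < J) :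
    ∑ T ∈ fam j J a, ∏ p ∈ T, (2 : ℝ) / p
      ≤ (((J + a : ℕ) : ℝ) / j) ^ 16 * (8 * (2 * a + 1) / j) := by
  classical
  set P := PR j (J + a) with hP
  have hne : ∀ T ∈ fam j J a, T.Nonempty := by
    intro T hT
    rw [nonempty_iff_ne_empty]
    rintro rfl
    have := (mem_filter.1 hT).2.1
    simp only [prod_empty, mul_one] at this
    have := (Nat.pow_le_pow_iff_right (by norm_num)).1 this
    omega
  let φ : Finset ℕ → ℝ := fun T => ∏ p ∈ T, (2 : ℝ) / p
  have hφ : ∀ T, 0 ≤ φ T := fun T => prod_nonneg fun _ _ => by positivity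
  let C : Finset ℕ → ℕ → Prop := fun T p =>
    2 ^ J ≤ 2 ^ a * (p * ∏ q ∈ T, q) ∧ p * ∏ q ∈ T, q ≤ 2 ^ a * 2 ^ J
  have h1 : ∑ T ∈ fam j J a, φ T
      ≤ ∑ T ∈ fam j J a, ∑ p ∈ P, if p ∈ T then φ T else 0 := by
    refine sum_le_sum fun T hT => ?_
    obtain ⟨p, hp⟩ := hne T hT
    have hpP : p ∈ P := mem_powerset.1 (mem_filter.1 hT).1 hp
    have := single_le_sum (f := fun p => if p ∈ T then φ T else 0)
      (fun q _ => by split_ifs; exacts [hφ T, le_rfl]) hpP
    simpa [hp] using this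
  have h2 : ∀ p ∈ P, (∑ T ∈ fam j J a, if p ∈ T then φ T else 0)
      ≤ ∑ T ∈ P.powerset, if C T p then φ T * (2 / p) else 0 := by
    intro p hp
    rw [← sum_filter, ← sum_filter]
    have e : ∑ T ∈ (fam j J a).filter (fun T => p ∈ T), φ T
        = ∑ T ∈ ((fam j J a).filter (fun T => p ∈ T)).image (fun T => T.erase p),
          φ T * (2 / p) := by
      rw [sum_image]
      · refine sum_congr rfl fun T hT => ?_
        have := (mem_filter.1 hT).2
        simp only [φ]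
        rw [prod_erase_mul _ _ this]
      · intro S hS T hT hST
        have hS' := (mem_filter.1 hS).2
        have hT' := (mem_filter.1 hT).2
        have := congrArg (insert p) hST
        simpa [insert_erase hS', insert_erase hT'] using this
    rw [e]
    refine sum_le_sum_of_subset_of_nonneg ?_ fun T _ _ => mul_nonneg (hφ T) (by positivity)
    intro T' hT'
    obtain ⟨T, hT, rfl⟩ := mem_image.1 hT'
    obtain ⟨hT1, hT2⟩ := mem_filter.1 hT
    obtain ⟨hT3, hT4⟩ := mem_filter.1 hT1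
    refine mem_filter.2 ⟨mem_powerset.2 ((erase_subset _ _).trans (mem_powerset.1 hT3)), ?_⟩
    simp only [C]
    rw [mul_prod_erase T (fun q => q) hT2]
    exact hT4
  have h3 : ∀ T ∈ P.powerset, (∑ p ∈ P, if C T p then φ T * (2 / p) else 0)
      ≤ φ T * (8 * (2 * a + 1) / j) := by
    intro T hT
    rw [← sum_filter, ← mul_sum]
    refine mul_le_mul_of_nonneg_left ?_ (hφ T)
    have := sum_short j (2 * a) hj (P.filter (C T)) (fun p hp => by
      have := mem_PR.1 (mem_filter.1 hp).1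
      exact ⟨this.2.2, this.1⟩) (fun p hp q hq => by
      have h1 := (mem_filter.1 hp).2.2
      have h2 := (mem_filter.1 hq).2.1
      have hpos : 0 < ∏ q ∈ T, q :=
        prod_pos fun q hq => (mem_PR.1 (mem_powerset.1 hT hq)).2.2.pos
      have : p * ∏ q ∈ T, q ≤ (2 ^ (2 * a) * q) * ∏ q ∈ T, q := by
        calc p * ∏ q ∈ T, q ≤ 2 ^ a * 2 ^ J := h1
          _ ≤ 2 ^ a * (2 ^ a * (q * ∏ q ∈ T, q)) := Nat.mul_le_mul_left _ h2
          _ = _ := by ring
      exact Nat.le_of_mul_le_mul_right this hpos)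
    have e : ∑ p ∈ P.filter (C T), (2 : ℝ) / p = 2 * ∑ p ∈ P.filter (C T), (1 : ℝ) / p := by
      rw [mul_sum]; exact sum_congr rfl fun _ _ => by ring
    rw [e]
    push_cast at this
    have e2 : (8 * (2 * a + 1) / j : ℝ) = 2 * (4 * (2 * a + 1) / j) := by ring
    rw [e2]
    linarith
  have h4 : ∑ T ∈ P.powerset, φ T ≤ (((J + a : ℕ) : ℝ) / j) ^ 16 := by
    simp only [φ]
    rw [← prod_one_add]
    refine le_trans ?_ (exp_sum_PR j (J + a) 2 hj hjJ)
    rw [mul_sum, Real.exp_sum]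
    refine prod_le_prod (fun p _ => by positivity) fun p _ => ?_
    have := Real.add_one_le_exp (((2 : ℕ) : ℝ) * (1 / p))
    push_cast at this ⊢
    have e : (2 : ℝ) / p = 2 * (1 / p) := by ring
    linarith
  calc ∑ T ∈ fam j J a, φ T ≤ _ := h1
    _ = ∑ p ∈ P, ∑ T ∈ fam j J a, if p ∈ T then φ T else 0 := sum_comm
    _ ≤ ∑ p ∈ P, ∑ T ∈ P.powerset, if C T p then φ T * (2 / p) else 0 := sum_le_sum h2
    _ = ∑ T ∈ P.powerset, ∑ p ∈ P, if C T p then φ T * (2 / p) else 0 := sum_comm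
    _ ≤ ∑ T ∈ P.powerset, φ T * (8 * (2 * a + 1) / j) := sum_le_sum h3
    _ = (∑ T ∈ P.powerset, φ T) * (8 * (2 * a + 1) / j) := by rw [sum_mul]
    _ ≤ _ := mul_le_mul_of_nonneg_right h4 (by positivity)

lemma sum_inv_sq (z N : ℕ) (hz : 1 ≤ z) : ∑ p ∈ Ioc z N, (1 : ℝ) / (p : ℝ) ^ 2 ≤ 1 / z := by
  rcases le_or_gt z N with h | h
  · have : ∑ p ∈ Ioc z N, (1 : ℝ) / (p : ℝ) ^ 2 ≤ 1 / z - 1 / N := by
      induction N, h using Nat.le_induction with
      | base => simp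
      | succ N hN ih =>
        rw [sum_Ioc_succ_top hN]
        have hN' : (1 : ℝ) ≤ N := by exact_mod_cast hz.trans hN
        have : (1 : ℝ) / ((N + 1 : ℕ) : ℝ) ^ 2 ≤ 1 / N - 1 / ((N + 1 : ℕ) : ℝ) := by
          push_cast
          rw [div_sub_div _ _ (by positivity) (by positivity), div_le_div_iff₀ (by positivity) (by positivity)]
          nlinarith
        linarith
    have h0 : (0 : ℝ) ≤ 1 / N := by positivity
    linarith
  · rw [Ioc_eq_empty (by omega)]
    simp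

end Pool.Agent.P.MP_58cc54_co
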