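import Mathlib

set_option autoImplicit false

namespace Pool.Agent.P.MP_58cc54_co

open Finset

/-- elementary symmetric sum of degree k -/
noncomputable def esym (g : ℕ → ℝ) (P : Finset ℕ) (k : ℕ) : ℝ :=
  ∑ S ∈ P.powersetCard k, ∏ p ∈ S, g p

/-- truncated alternating sum -/
noncomputable def trunc (g : ℕ → ℝ) (P : Finset ℕ) (k : ℕ) : ℝ :=
  ∑ i ∈ range k, (-1 : ℝ) ^ i * esym g P i

lemma esym_zero (g : ℕ → ℝ) (P : Finset ℕ) : esym g P 0 = 1 := by
  simp [esym]

lemma esym_insert (g : ℕ → ℝ) (P : Finset ℕ) (a : ℕ) (ha : a ∉ P) (k : ℕ) :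
    esym g (insert a P) (k + 1) = esym g P (k + 1) + g a * esym g P k := by
  unfold esym
  rw [powersetCard_succ_insert ha, sum_union, sum_image]
  · congr 1
    rw [mul_sum]
    refine sum_congr rfl fun S hS => ?_
    rw [prod_insert]
    intro h
    exact ha ((mem_powersetCard.1 hS).1 h)
  · intro S hS T hT hST
    have hS' : a ∉ S := fun h => ha ((mem_powersetCard.1 hS).1 h)
    have hT' : a ∉ T := fun h => ha ((mem_powersetCard.1 hT).1 h)
    have := congrArg (fun U => U.erase a) hST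
    simpa [erase_insert hS', erase_insert hT'] using this
  · rw [disjoint_left]
    intro S hS hS'
    obtain ⟨T, _, rfl⟩ := mem_image.1 hS'
    exact ha ((mem_powersetCard.1 hS).1 (mem_insert_self _ _))

lemma esym_nonneg (g : ℕ → ℝ) (P : Finset ℕ) (hg : ∀ p ∈ P, 0 ≤ g p) (k : ℕ) :
    0 ≤ esym g P k := by
  unfold esym
  refine sum_nonneg fun S hS => prod_nonneg fun p hp => hg p ((mem_powersetCard.1 hS).1 hp)

lemma trunc_insert (g : ℕ → ℝ) (P : Finset ℕ) (a : ℕ) (ha : a ∉ P) (k : ℕ) :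
    trunc g (insert a P) (k + 1) = trunc g P (k + 1) - g a * trunc g P k := by
  induction k with
  | zero => simp [trunc, esym_zero]
  | succ k ih =>
    unfold trunc at *
    rw [sum_range_succ, ih, sum_range_succ _ (k + 1), sum_range_succ _ k, esym_insert g P a ha]
    ring

/-- Bonferroni inequality -/
lemma bonferroni (g : ℕ → ℝ) (P : Finset ℕ) (hg : ∀ p ∈ P, 0 ≤ g p ∧ g p ≤ 1) (k : ℕ) :
    |∏ p ∈ P, (1 - g p) - trunc g P k| ≤ esym g P k := by
  induction P using Finset.induction_on generalizing k with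
  | empty =>
    cases k with
    | zero => simp [trunc, esym]
    | succ k =>
      have : trunc g ∅ (k + 1) = 1 := by
        unfold trunc
        rw [sum_range_succ', esym_zero]
        have : ∀ i, esym g ∅ (i + 1) = 0 := by
          intro i
          unfold esym
          rw [powersetCard_eq_empty.2 (by simp)]
          simp
        simp [this]
      rw [this]
      simp
      exact esym_nonneg g ∅ (by simp) _
  | insert a P ha ih =>
    have hg' : ∀ p ∈ P, 0 ≤ g p ∧ g p ≤ 1 := fun p hp => hg p (mem_insert_of_mem hp)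
    have hga := hg a (mem_insert_self _ _)
    cases k with
    | zero =>
      simp only [trunc, range_zero, sum_empty, sub_zero, esym_zero]
      rw [abs_of_nonneg (prod_nonneg fun p hp => by linarith [(hg p hp).2])]
      exact prod_le_one (fun p hp => by linarith [(hg p hp).2]) (fun p hp => by linarith [(hg p hp).1])
    | succ k =>
      rw [prod_insert ha, trunc_insert g P a ha, esym_insert g P a ha]
      have h1 := ih hg' (k + 1)
      have h2 := ih hg' k
      have e : (1 - g a) * ∏ p ∈ P, (1 - g p) - (trunc g P (k + 1) - g a * trunc g P k)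
          = (∏ p ∈ P, (1 - g p) - trunc g P (k + 1))
            - g a * (∏ p ∈ P, (1 - g p) - trunc g P k) := by ring
      rw [e]
      refine (abs_sub _ _).trans ?_
      rw [abs_mul, abs_of_nonneg hga.1]
      have := mul_le_mul_of_nonneg_left h2 hga.1
      linarith

lemma sum_esym_le (g : ℕ → ℝ) (P : Finset ℕ) (hg : ∀ p ∈ P, 0 ≤ g p) (k : ℕ) :
    ∑ i ∈ range k, esym g P i ≤ ∏ p ∈ P, (1 + g p) := by
  rw [prod_one_add]
  unfold esym
  rw [← sum_biUnion]
  · refine sum_le_sum_of_subset_of_nonneg ?_ ?_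
    · intro S hS
      obtain ⟨i, _, hi⟩ := mem_biUnion.1 hS
      exact mem_powerset.2 (mem_powersetCard.1 hi).1
    · intro S hS _
      exact prod_nonneg fun p hp => hg p (mem_powerset.1 hS hp)
  · intro i _ j _ hij
    exact pairwise_disjoint_powersetCard P hij

lemma esym_le_prod (g : ℕ → ℝ) (P : Finset ℕ) (hg : ∀ p ∈ P, 0 ≤ g p) (k : ℕ) :
    esym g P k ≤ ∏ p ∈ P, (1 + g p) := by
  refine le_trans ?_ (sum_esym_le g P hg (k + 1))
  rw [sum_range_succ]
  have : 0 ≤ ∑ i ∈ range k, esym g P i := sum_nonneg fun i _ => esym_nonneg g P hg i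
  linarith

lemma esym_smul (g : ℕ → ℝ) (P : Finset ℕ) (c : ℝ) (k : ℕ) :
    esym (fun p => c * g p) P k = c ^ k * esym g P k := by
  unfold esym
  rw [mul_sum]
  refine sum_congr rfl fun S hS => ?_
  rw [prod_mul_distrib, prod_const, (mem_powersetCard.1 hS).2]

lemma esym_mono (g h : ℕ → ℝ) (P : Finset ℕ) (hg : ∀ p ∈ P, 0 ≤ g p) (hgh : ∀ p ∈ P, g p ≤ h p)
    (k : ℕ) : esym g P k ≤ esym h P k := by
  unfold esym
  refine sum_le_sum fun S hS => prod_le_prod (fun p hp => hg p ((mem_powersetCard.1 hS).1 hp))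
    (fun p hp => hgh p ((mem_powersetCard.1 hS).1 hp))

lemma esym_le_exp (g : ℕ → ℝ) (P : Finset ℕ) (hg : ∀ p ∈ P, 0 ≤ g p) (k : ℕ) :
    2 ^ k * esym g P k ≤ Real.exp (2 * ∑ p ∈ P, g p) := by
  rw [← esym_smul, mul_sum]
  refine (esym_le_prod _ P (fun p hp => by have := hg p hp; positivity) k).trans ?_
  rw [Real.exp_sum]
  refine prod_le_prod (fun p hp => by have := hg p hp; positivity) fun p _ => ?_
  linarith [Real.add_one_le_exp (2 * g p)]

/-- The abstract sieve. -/
lemma abstract_sieve (I : Finset ℕ) (W : ℕ → ℝ) (hW : ∀ t ∈ I, 0 ≤ W t) (P : Finset ℕ)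
    (x : ℕ → ℕ → ℝ) (hx : ∀ t ∈ I, ∀ p ∈ P, 0 ≤ x p t ∧ x p t ≤ 1)
    (g ρ : ℕ → ℝ) (hg : ∀ p ∈ P, 0 ≤ g p ∧ g p ≤ 1) (A R : ℝ) (hA : 0 ≤ A)
    (hloc : ∀ S ⊆ P, |∑ t ∈ I, W t * ∏ p ∈ S, x p t - A * ∏ p ∈ S, g p| ≤ R * ∏ p ∈ S, ρ p)
    (k : ℕ) :
    |∑ t ∈ I, W t * ∏ p ∈ P, (1 - x p t) - A * ∏ p ∈ P, (1 - g p)|
      ≤ 2 * A * esym g P k + R * ∑ i ∈ range (k + 1), esym ρ P i := by
  have hE : ∀ i, |∑ t ∈ I, W t * esym (fun p => x p t) P i - A * esym g P i| ≤ R * esym ρ P i := by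
    intro i
    unfold esym
    have e1 : ∑ t ∈ I, W t * ∑ S ∈ P.powersetCard i, ∏ p ∈ S, x p t
        = ∑ S ∈ P.powersetCard i, ∑ t ∈ I, W t * ∏ p ∈ S, x p t := by
      rw [sum_comm]
      exact sum_congr rfl fun t _ => by rw [mul_sum]
    rw [e1, mul_sum, mul_sum, ← sum_sub_distrib]
    refine (abs_sum_le_sum_abs _ _).trans (sum_le_sum fun S hS => hloc S (mem_powersetCard.1 hS).1)
  have h1 : |∑ t ∈ I, W t * ∏ p ∈ P, (1 - x p t) - ∑ t ∈ I, W t * trunc (fun p => x p t) P k|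
      ≤ ∑ t ∈ I, W t * esym (fun p => x p t) P k := by
    rw [← sum_sub_distrib]
    refine (abs_sum_le_sum_abs _ _).trans (sum_le_sum fun t ht => ?_)
    rw [← mul_sub, abs_mul, abs_of_nonneg (hW t ht)]
    exact mul_le_mul_of_nonneg_left (bonferroni (fun p => x p t) P (hx t ht) k) (hW t ht)
  have h2 : |∑ t ∈ I, W t * trunc (fun p => x p t) P k - A * trunc g P k|
      ≤ R * ∑ i ∈ range k, esym ρ P i := by
    unfold trunc
    have e1 : ∑ t ∈ I, W t * ∑ i ∈ range k, (-1 : ℝ) ^ i * esym (fun p => x p t) P i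
        = ∑ i ∈ range k, (-1 : ℝ) ^ i * ∑ t ∈ I, W t * esym (fun p => x p t) P i := by
      simp_rw [mul_sum]
      rw [sum_comm]
      exact sum_congr rfl fun i _ => sum_congr rfl fun t _ => by ring
    rw [e1, mul_sum, mul_sum, ← sum_sub_distrib]
    refine (abs_sum_le_sum_abs _ _).trans (sum_le_sum fun i _ => ?_)
    have : (-1 : ℝ) ^ i * ∑ t ∈ I, W t * esym (fun p => x p t) P i - A * ((-1) ^ i * esym g P i)
        = (-1) ^ i * (∑ t ∈ I, W t * esym (fun p => x p t) P i - A * esym g P i) := by ring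
    rw [this, abs_mul, abs_pow, abs_neg, abs_one, one_pow, one_mul]
    exact hE i
  have h3 : |A * trunc g P k - A * ∏ p ∈ P, (1 - g p)| ≤ A * esym g P k := by
    rw [← mul_sub, abs_mul, abs_of_nonneg hA, abs_sub_comm]
    exact mul_le_mul_of_nonneg_left (bonferroni g P hg k) hA
  have h4 := hE k
  rw [sum_range_succ, mul_add]
  rw [abs_le] at *
  constructor <;> linarith [h1.1, h1.2, h2.1, h2.2, h3.1, h3.2, h4.1, h4.2]

end Pool.Agent.P.MP_58cc54_co
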