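import Mathlib
import Pool.Agent.P.MP_58cc54_co.Sieve
import Pool.Agent.P.MP_58cc54_co.Count
import Pool.Agent.P.MP_58cc54_co.Primes

set_option autoImplicit false

namespace Pool.Agent.P.MP_58cc54_co

open Finset

lemma sift_bound (P T : Finset ℕ) (hP : ∀ p ∈ P, p.Prime) (hT : ∀ p ∈ T, p.Prime)
    (hd : Disjoint T P) (B D : ℕ → ℕ → Prop) (hB : ∀ p ∈ P, Function.Periodic (B p) p)
    (hD : ∀ p ∈ T, Function.Periodic (D p) p) (X k : ℕ) :
    |(cnt (fun t => (∀ p ∈ T, D p t) ∧ ∀ p ∈ P, ¬ B p t) X X : ℝ)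
        - (X * ∏ p ∈ T, ((cnt (D p) 0 p : ℝ) / p)) * ∏ p ∈ P, (1 - (cnt (B p) 0 p : ℝ) / p)|
      ≤ 2 * (X * ∏ p ∈ T, ((cnt (D p) 0 p : ℝ) / p))
          * esym (fun p => (cnt (B p) 0 p : ℝ) / p) P k
        + (∏ p ∈ T, (cnt (D p) 0 p : ℝ))
          * ∑ i ∈ range (k + 1), esym (fun p => (cnt (B p) 0 p : ℝ)) P i := by
  classical
  have key := abstract_sieve (Ico X (X + X)) (fun t => if ∀ p ∈ T, D p t then 1 else 0)
    (fun t _ => by split_ifs <;> norm_num) P (fun p t => if B p t then 1 else 0)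
    (fun t _ p _ => by split_ifs <;> norm_num) (fun p => (cnt (B p) 0 p : ℝ) / p)
    (fun p => (cnt (B p) 0 p : ℝ)) ?_ (X * ∏ p ∈ T, ((cnt (D p) 0 p : ℝ) / p))
    (∏ p ∈ T, (cnt (D p) 0 p : ℝ)) ?_ ?_ k
  · convert key using 3
    unfold cnt
    rw [card_filter]
    push_cast
    refine sum_congr rfl fun t _ => ?_
    by_cases h1 : ∀ p ∈ T, D p t
    · by_cases h2 : ∀ p ∈ P, ¬ B p t
      · rw [if_pos ⟨h1, h2⟩, if_pos h1, one_mul]
        symm
        exact prod_eq_one fun p hp => by simp [h2 p hp]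
      · rw [if_neg (fun h => h2 h.2)]
        push Not at h2
        obtain ⟨p, hp, hb⟩ := h2
        rw [prod_eq_zero hp (by simp [hb]), mul_zero]
    · rw [if_neg (fun h => h1 h.1), if_neg h1, zero_mul]
  · intro p hp
    have hp0 : (0 : ℝ) < p := by exact_mod_cast (hP p hp).pos
    refine ⟨by positivity, ?_⟩
    rw [div_le_one hp0]
    have : cnt (B p) 0 p ≤ p := by
      unfold cnt
      refine (card_filter_le _ _).trans (by simp)
    exact_mod_cast this
  · exact mul_nonneg (Nat.cast_nonneg _) (prod_nonneg fun p _ => by positivity)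
  · intro S hS
    have hdS : Disjoint T S := hd.mono_right hS
    let Q : ℕ → ℕ → Prop := fun p t => if p ∈ T then D p t else B p t
    have hQT : ∀ p ∈ T, Q p = D p := fun p hp => by ext t; simp [Q, hp]
    have hQS : ∀ p ∈ S, Q p = B p := fun p hp => by
      ext t; simp [Q, disjoint_right.1 hdS hp]
    have h := cnt_prod_approx (T ∪ S) (fun p hp => by
      rcases mem_union.1 hp with h | h
      exacts [hT p h, hP p (hS h)]) Q (fun p hp => by
      rcases mem_union.1 hp with h | h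
      · rw [hQT p h]; exact hD p h
      · rw [hQS p h]; exact hB p (hS h)) X X
    rw [prod_union hdS, prod_union hdS] at h
    have e1 : ∏ p ∈ T, ((cnt (Q p) 0 p : ℝ) / p) = ∏ p ∈ T, ((cnt (D p) 0 p : ℝ) / p) :=
      prod_congr rfl fun p hp => by rw [hQT p hp]
    have e2 : ∏ p ∈ S, ((cnt (Q p) 0 p : ℝ) / p) = ∏ p ∈ S, ((cnt (B p) 0 p : ℝ) / p) :=
      prod_congr rfl fun p hp => by rw [hQS p hp]
    have e3 : ∏ p ∈ T, (cnt (Q p) 0 p : ℝ) = ∏ p ∈ T, (cnt (D p) 0 p : ℝ) :=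
      prod_congr rfl fun p hp => by rw [hQT p hp]
    have e4 : ∏ p ∈ S, (cnt (Q p) 0 p : ℝ) = ∏ p ∈ S, (cnt (B p) 0 p : ℝ) :=
      prod_congr rfl fun p hp => by rw [hQS p hp]
    rw [e1, e2, e3, e4, ← mul_assoc] at h
    convert h using 3
    unfold cnt
    rw [card_filter]
    push_cast
    refine sum_congr rfl fun t _ => ?_
    by_cases h1 : ∀ p ∈ T, D p t
    · by_cases h2 : ∀ p ∈ S, B p t
      · rw [if_pos h1, if_pos, one_mul]
        · exact prod_eq_one fun p hp => by simp [h2 p hp]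
        · intro p hp
          rcases mem_union.1 hp with h | h
          · rw [hQT p h]; exact h1 p h
          · rw [hQS p h]; exact h2 p h
      · have h3 : ¬ ∀ p ∈ T ∪ S, Q p t := by
          intro h
          exact h2 fun p hp => by rw [← hQS p hp]; exact h p (mem_union_right _ hp)
        rw [if_neg h3]
        push Not at h2
        obtain ⟨p, hp, hb⟩ := h2
        rw [prod_eq_zero hp (by simp [hb]), mul_zero]
    · have h3 : ¬ ∀ p ∈ T ∪ S, Q p t := by
        intro h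
        exact h1 fun p hp => by rw [← hQT p hp]; exact h p (mem_union_left _ hp)
      rw [if_neg h3, if_neg h1, zero_mul]

/-- bounds on the sieve quantities -/
lemma sieve_quantities (P : Finset ℕ) (ρ : ℕ → ℝ) (z Ω : ℝ) (hz : 1 ≤ z)
    (hP : ∀ p ∈ P, 0 < p ∧ (p : ℝ) ≤ z) (hρ : ∀ p ∈ P, 0 ≤ ρ p ∧ 2 * ρ p ≤ p)
    (hΩ : Real.exp (2 * ∑ p ∈ P, ρ p / p) ≤ Ω) (k : ℕ) :
    1 / Ω ≤ ∏ p ∈ P, (1 - ρ p / p) ∧ 2 ^ k * esym (fun p => ρ p / p) P k ≤ Ω ∧
      ∑ i ∈ range (k + 1), esym ρ P i ≤ z ^ k * Ω := by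
  have hg0 : ∀ p ∈ P, 0 ≤ ρ p / p := fun p hp => div_nonneg (hρ p hp).1 (Nat.cast_nonneg _)
  have hg1 : ∀ p ∈ P, ρ p / p ≤ 1 / 2 := fun p hp => by
    have : (0 : ℝ) < p := by exact_mod_cast (hP p hp).1
    rw [div_le_div_iff₀ this (by norm_num)]
    linarith [(hρ p hp).2]
  refine ⟨?_, (esym_le_exp _ P hg0 k).trans hΩ, ?_⟩
  · refine (one_div_le_one_div_of_le (Real.exp_pos _) hΩ).trans ?_
    rw [one_div, ← Real.exp_neg, mul_sum, ← sum_neg_distrib, Real.exp_sum]
    refine prod_le_prod (fun p _ => (Real.exp_pos _).le) fun p hp => ?_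
    have h0 := hg0 p hp
    have h1 := hg1 p hp
    set u := ρ p / p
    rw [Real.exp_neg, inv_le_comm₀ (Real.exp_pos _) (by linarith)]
    refine le_trans ?_ (Real.add_one_le_exp _)
    rw [inv_le_iff_one_le_mul₀ (by linarith)]
    nlinarith
  · have h1 : ∀ i ∈ range (k + 1), esym ρ P i ≤ z ^ k * esym (fun p => ρ p / p) P i := by
      intro i hi
      have h2 : esym ρ P i ≤ esym (fun p => z * (ρ p / p)) P i := by
        refine esym_mono _ _ P (fun p hp => (hρ p hp).1) (fun p hp => ?_) i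
        have hp0 : (0 : ℝ) < p := by exact_mod_cast (hP p hp).1
        have : ρ p = p * (ρ p / p) := by field_simp
        rw [this]
        have h3 := mul_le_mul_of_nonneg_right (hP p hp).2 (hg0 p hp)
        rw [← this] at h3 ⊢
        exact h3
      rw [esym_smul] at h2
      refine h2.trans (mul_le_mul_of_nonneg_right ?_ (esym_nonneg _ P hg0 i))
      exact pow_le_pow_right₀ hz (by simpa [Nat.lt_succ_iff] using hi)
    refine (sum_le_sum h1).trans ?_
    rw [← mul_sum]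
    refine mul_le_mul_of_nonneg_left ?_ (by positivity)
    refine (sum_esym_le _ P hg0 _).trans (le_trans ?_ hΩ)
    rw [mul_sum, Real.exp_sum]
    refine prod_le_prod (fun p hp => by linarith [hg0 p hp]) fun p hp => ?_
    linarith [Real.add_one_le_exp (2 * (ρ p / p)), hg0 p hp]

lemma final_ineq (X V Ω Z Y z K σ tk : ℝ) (hX : 0 < X) (hV : 1 / Ω ≤ V) (hΩ : 1 ≤ Ω)
    (htk : 8 * Ω ^ 2 ≤ tk) (hK : 0 ≤ K) (hKσ : K * σ ≤ 1 / 5) (hZ : 0 ≤ Z) (hY : 1 ≤ Y)
    (hz : 0 < z) (h1 : Z * tk * (2 * Y) ≤ X) (h2 : 2 * K * tk ≤ z) (h3 : 2 * K * tk * Y ≤ X) :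
    K * (σ * (5 / 4 * X * V + Y * (Z * Ω))) + K * (2 * X / z + 2 * Y) < 3 / 4 * X * V - Z * Ω := by
  have hΩ0 : 0 < Ω := by linarith
  have hVΩ : 1 ≤ V * Ω := by rwa [div_le_iff₀ hΩ0] at hV
  have hV0 : 0 < V := lt_of_lt_of_le (by positivity) hV
  have htkΩ : 8 * Ω ≤ tk := by nlinarith
  have a1 : K * (σ * (5 / 4 * X * V + Y * (Z * Ω))) ≤ 1 / 5 * (5 / 4 * X * V + Y * (Z * Ω)) := by
    rw [← mul_assoc]
    exact mul_le_mul_of_nonneg_right hKσ (by positivity)
  have a2 : (Y * (Z * Ω) + Z * Ω) * 8 ≤ X * V := by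
    have b1 : (Y * (Z * Ω) + Z * Ω) * 8 * Ω ≤ X := by
      have : (Y * (Z * Ω) + Z * Ω) * 8 * Ω = Z * (8 * Ω ^ 2) * (Y + 1) := by ring
      rw [this]
      refine le_trans ?_ h1
      exact mul_le_mul (mul_le_mul_of_nonneg_left htk hZ) (by linarith) (by linarith)
        (mul_nonneg hZ (by linarith))
    have b2 : X ≤ X * V * Ω := by nlinarith
    exact le_of_mul_le_mul_right (b1.trans b2) hΩ0
  have a3 : K * (2 * X / z) * 8 ≤ X * V := by
    have b1 : K * (2 * X / z) * 8 * Ω ≤ X := by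
      have : K * (2 * X / z) * 8 * Ω = (2 * K * (8 * Ω)) * X / z := by ring
      rw [this, div_le_iff₀ hz]
      have : 2 * K * (8 * Ω) ≤ z := le_trans (mul_le_mul_of_nonneg_left htkΩ (by positivity)) h2
      nlinarith
    have b2 : X ≤ X * V * Ω := by nlinarith
    exact le_of_mul_le_mul_right (b1.trans b2) hΩ0
  have a4 : K * (2 * Y) * 8 ≤ X * V := by
    have b1 : K * (2 * Y) * 8 * Ω ≤ X := by
      have : K * (2 * Y) * 8 * Ω = (2 * K * (8 * Ω)) * Y := by ring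
      rw [this]
      refine le_trans ?_ h3
      exact mul_le_mul_of_nonneg_right (mul_le_mul_of_nonneg_left htkΩ (by positivity)) (by linarith)
    have b2 : X ≤ X * V * Ω := by nlinarith
    exact le_of_mul_le_mul_right (b1.trans b2) hΩ0
  have a5 : 0 ≤ Y * (Z * Ω) := by positivity
  have a6 : 0 < X * V := by positivity
  nlinarith

end Pool.Agent.P.MP_58cc54_co
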