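import Mathlib
import Pool.Agent.P.MP_58cc54_co.NT
import Pool.Agent.P.MP_58cc54_co.Game

set_option autoImplicit false

namespace Pool.Agent.P.MP_58cc54_co

open Finset

lemma card_edges (n : ℕ) :
    2 * (univ.filter (fun e : Sym2 (Fin n) => ¬ e.IsDiag)).card + n = n * n := by
  have h := Sym2.card_subtype_not_diag (α := Fin n)
  rw [Fintype.card_subtype, Fintype.card_fin] at h
  rw [h, Nat.choose_two_right, Nat.two_mul_div_two_of_even (Nat.even_mul_pred_self n)]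
  cases n with
  | zero => rfl
  | succ n => simp; ring

/-- For all positive constants there are arbitrarily large n such that Enforcer loses the strict
triangle game for every bias between c₁ n^(3/2) and c₂ n^(3/2). -/
theorem triangle_gap (c₁ c₂ : ℝ) (h₁ : 0 < c₁) (h₂ : 0 < c₂) (n₀ : ℕ) :
    ∃ n : ℕ, n₀ ≤ n ∧ ∀ b : ℕ, c₁ * (n : ℝ) ^ ((3 : ℝ) / 2) ≤ b → (b : ℝ) ≤ c₂ * (n : ℝ) ^ ((3 : ℝ) / 2) →
      ¬ ∃ S : Set (Finset (Sym2 (Fin n)) × Finset (Sym2 (Fin n))),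
        ((∅ : Finset (Sym2 (Fin n))), (∅ : Finset (Sym2 (Fin n)))) ∈ S ∧
        ∀ p ∈ S,
          ((univ.filter (fun e : Sym2 (Fin n) => ¬ e.IsDiag)) \ (p.1 ∪ p.2) = ∅ →
            (⊤ : SimpleGraph (Fin 3)).IsContained
              (SimpleGraph.fromEdgeSet (p.1 : Set (Sym2 (Fin n))))) ∧
          ∀ e ∈ (univ.filter (fun e : Sym2 (Fin n) => ¬ e.IsDiag)) \ (p.1 ∪ p.2),
            ∃ T : Finset (Sym2 (Fin n)),
              T ⊆ (univ.filter (fun e : Sym2 (Fin n) => ¬ e.IsDiag)) \ (insert e (p.1 ∪ p.2)) ∧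
              T.card = min b ((univ.filter (fun e : Sym2 (Fin n) => ¬ e.IsDiag)) \
                (insert e (p.1 ∪ p.2))).card ∧
              (insert e p.1, p.2 ∪ T) ∈ S := by
  set L := ⌈(1 / c₁ + 2) / c₁⌉₊ with hL
  set K := (4 * L) ^ 2 with hK
  set C := ⌈1 / c₁ ^ 2 + 16 * (c₂ + 1) ^ 2⌉₊ with hC
  obtain ⟨n, hn, hnt⟩ := nt_main K C (n₀ + 4 * K + 3)
  refine ⟨n, by omega, ?_⟩
  rintro b hb1 hb2 ⟨S, h0, hS⟩
  set U := univ.filter (fun e : Sym2 (Fin n) => ¬ e.IsDiag) with hU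
  have hN := card_edges n
  rw [← hU] at hN
  set N := U.card with hNdef
  set s : ℝ := (n : ℝ) ^ ((3 : ℝ) / 2) with hs
  have hn1 : (1 : ℝ) ≤ n := by exact_mod_cast (by omega : 1 ≤ n)
  have hn0 : (0 : ℝ) < n := by linarith
  have hs2 : s ^ 2 = (n : ℝ) ^ 3 := by
    rw [hs, ← Real.rpow_natCast, ← Real.rpow_mul hn0.le]
    norm_num
  have hs0 : 0 < s := Real.rpow_pos_of_pos hn0 _
  have hsn : (n : ℝ) ≤ s := by
    refine le_of_sq_le_sq ?_ hs0.le
    rw [hs2]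
    nlinarith
  have hNr : 2 * (N : ℝ) + n = n * n := by exact_mod_cast hN
  have hLr : (1 / c₁ + 2) / c₁ ≤ L := Nat.le_ceil _
  have hCr : 1 / c₁ ^ 2 + 16 * (c₂ + 1) ^ 2 ≤ C := Nat.le_ceil _
  have hb0 : (0 : ℝ) < b := lt_of_lt_of_le (by positivity) hb1
  obtain ⟨m, r, hmr, hr1, hr2⟩ := game n b (N / (b + 1) + 1) L U
    (fun e he => (mem_filter.1 he).2) S h0 hS
    (by
      have := Nat.lt_div_mul_add (a := N) (b := b + 1) (by omega)
      rw [add_mul]; omega)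
    (by
      have q1 : ((N / (b + 1) : ℕ) : ℝ) * (c₁ * s) ≤ N := by
        have a1 : ((N / (b + 1) : ℕ) : ℝ) * (b + 1) ≤ N := by
          exact_mod_cast Nat.div_mul_le_self N (b + 1)
        have a2 : (0 : ℝ) ≤ ((N / (b + 1) : ℕ) : ℝ) := Nat.cast_nonneg _
        nlinarith
      set q : ℝ := ((N / (b + 1) : ℕ) : ℝ) with hq
      have q0 : 0 ≤ q := Nat.cast_nonneg _
      have q2 : 2 * q * n * c₁ ≤ s := by
        refine le_of_mul_le_mul_right ?_ hs0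
        have : s * s = n * (n * n) := by rw [← pow_two, hs2]; ring
        rw [this]
        nlinarith
      have q3 : 2 * q * n ≤ s / c₁ := by rwa [le_div_iff₀ h₁]
      have q4 : s ≤ b / c₁ := by rw [le_div_iff₀ h₁]; linarith
      have q5 : (1 / c₁ + 2) * s ≤ (1 / c₁ + 2) * (b / c₁) :=
        mul_le_mul_of_nonneg_left q4 (by positivity)
      have q6 : (1 / c₁ + 2) * (b / c₁) ≤ L * b := by
        have : (1 / c₁ + 2) * (b / c₁) = (1 / c₁ + 2) / c₁ * b := by ring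
        rw [this]
        exact mul_le_mul_of_nonneg_right hLr hb0.le
      have q7 : (1 / c₁ + 2) * s = s / c₁ + 2 * s := by ring
      have q8 : (0 : ℝ) ≤ L := Nat.cast_nonneg _
      have : 2 * (q + 1) * n ≤ (L : ℝ) * (b + 1) := by nlinarith
      rw [hq] at this
      exact_mod_cast this)
  have hmr' : (N : ℝ) = m * (b + 1) + r := by exact_mod_cast hmr
  have hm0 : (0 : ℝ) ≤ m := Nat.cast_nonneg _
  have hr0 : (0 : ℝ) ≤ r := Nat.cast_nonneg _
  refine hnt r m hr1 hr2 ?_ ?_ ?_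
  · have a1 : (r : ℝ) ≤ K := by exact_mod_cast hr2
    have a2 : (4 * K + 3 : ℝ) ≤ n := by exact_mod_cast (by omega : 4 * K + 3 ≤ n)
    have a3 : (0 : ℝ) ≤ K := Nat.cast_nonneg _
    have a4 : (n : ℝ) * n ≤ 4 * (m * (b + 1)) := by nlinarith
    have a5 : (b + 1 : ℝ) ≤ (c₂ + 1) * s := by nlinarith
    have a6 : (n : ℝ) * n ≤ 4 * (m * ((c₂ + 1) * s)) := by nlinarith
    have a7 : ((n : ℝ) * n) ^ 2 ≤ (4 * (m * ((c₂ + 1) * s))) ^ 2 :=
      pow_le_pow_left₀ (by positivity) a6 2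
    have a8 : (n : ℝ) * n ^ 3 ≤ (16 * (c₂ + 1) ^ 2 * m ^ 2) * n ^ 3 := by
      have : (4 * (m * ((c₂ + 1) * s))) ^ 2 = (16 * (c₂ + 1) ^ 2 * m ^ 2) * s ^ 2 := by ring
      rw [this, hs2] at a7
      nlinarith
    have a9 : (n : ℝ) ≤ 16 * (c₂ + 1) ^ 2 * m ^ 2 := le_of_mul_le_mul_right a8 (by positivity)
    have a10 : 16 * (c₂ + 1) ^ 2 * (m : ℝ) ^ 2 ≤ C * m ^ 2 := by
      refine mul_le_mul_of_nonneg_right ?_ (by positivity)
      have : 0 < 1 / c₁ ^ 2 := by positivity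
      linarith
    exact_mod_cast a9.trans a10
  · have a1 : (m : ℝ) * (c₁ * s) ≤ n * n := by nlinarith
    have a2 : ((m : ℝ) * (c₁ * s)) ^ 2 ≤ (n * n) ^ 2 := pow_le_pow_left₀ (by positivity) a1 2
    have a3 : ((m : ℝ) ^ 2 * c₁ ^ 2) * n ^ 3 ≤ n * n ^ 3 := by
      have : ((m : ℝ) * (c₁ * s)) ^ 2 = (m ^ 2 * c₁ ^ 2) * s ^ 2 := by ring
      rw [this, hs2] at a2
      nlinarith
    have a4 : (m : ℝ) ^ 2 * c₁ ^ 2 ≤ n := le_of_mul_le_mul_right a3 (by positivity)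
    have a5 : (m : ℝ) ^ 2 ≤ 1 / c₁ ^ 2 * n := by
      rw [one_div_mul_eq_div, le_div_iff₀ (by positivity)]
      exact a4
    have a6 : 1 / c₁ ^ 2 * (n : ℝ) ≤ C * n := by
      refine mul_le_mul_of_nonneg_right ?_ hn0.le
      have : 0 < 16 * (c₂ + 1) ^ 2 := by positivity
      linarith
    exact_mod_cast a5.trans a6
  · refine ⟨2 * (b + 1), ?_⟩
    have a1 : 2 * (N : ℤ) + n = n * n := by exact_mod_cast hN
    have a2 : (N : ℤ) = m * (b + 1) + r := by exact_mod_cast hmr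
    linear_combination -a1 + 2 * a2

end Pool.Agent.P.MP_58cc54_co
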