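import Mathlib

set_option autoImplicit false

namespace Pool.Agent.P.MP_58cc54_co

open Finset

/-- the class of a vertex under a labelling -/
def cls {n : ℕ} (l : Fin n → Fin n) (x : Fin n) : Finset (Fin n) := univ.filter (fun y => l y = l x)

/-- the vertices whose class has at least s members -/
def big {n : ℕ} (l : Fin n → Fin n) (s : ℕ) : Finset (Fin n) :=
  univ.filter (fun x => s ≤ (cls l x).card)

/-- the labelling after the classes of x and y are merged -/
def mrg {n : ℕ} (l : Fin n → Fin n) (x y : Fin n) : Fin n → Fin n :=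
  fun z => if l z = l y then l x else l z

lemma mem_cls {n : ℕ} {l : Fin n → Fin n} {x y : Fin n} : y ∈ cls l x ↔ l y = l x := by
  simp [cls]

lemma mem_big {n : ℕ} {l : Fin n → Fin n} {s : ℕ} {x : Fin n} :
    x ∈ big l s ↔ s ≤ (cls l x).card := by
  simp [big]

lemma cls_pos {n : ℕ} (l : Fin n → Fin n) (x : Fin n) : 1 ≤ (cls l x).card :=
  card_pos.2 ⟨x, mem_cls.2 rfl⟩

lemma cls_congr {n : ℕ} {l : Fin n → Fin n} {x y : Fin n} (h : l x = l y) : cls l x = cls l y := by
  ext z; simp [mem_cls, h]

lemma cls_mrg_in {n : ℕ} (l : Fin n → Fin n) (x y z : Fin n) (hz : l z = l x ∨ l z = l y) :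
    (cls (mrg l x y) z).card ≤ (cls l x).card + (cls l y).card := by
  refine le_trans (card_le_card ?_) (card_union_le _ _)
  intro u hu
  rw [mem_cls] at hu
  rw [mem_union, mem_cls, mem_cls]
  unfold mrg at hu
  grind

lemma cls_mrg_out {n : ℕ} (l : Fin n → Fin n) (x y z : Fin n) (hz : ¬ (l z = l x ∨ l z = l y)) :
    (cls (mrg l x y) z).card ≤ (cls l z).card := by
  refine card_le_card ?_
  intro u hu
  rw [mem_cls] at hu ⊢
  unfold mrg at hu
  grind

lemma big_mrg_small {n : ℕ} (l : Fin n → Fin n) (x y : Fin n) (s : ℕ)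
    (h : (cls l x).card + (cls l y).card < s) : (big (mrg l x y) s).card ≤ (big l s).card := by
  refine card_le_card ?_
  intro z hz
  rw [mem_big] at hz ⊢
  by_cases h1 : l z = l x ∨ l z = l y
  · have := cls_mrg_in l x y z h1
    omega
  · exact hz.trans (cls_mrg_out l x y z h1)

lemma big_mrg {n : ℕ} (l : Fin n → Fin n) (x y : Fin n) (s : ℕ) :
    (big (mrg l x y) s).card ≤ (big l s).card + 2 * s := by
  have key : ∀ u : Fin n, ((cls l u).filter (fun z => (cls l z).card < s)).card ≤ s := by
    intro u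
    rcases ((cls l u).filter (fun z => (cls l z).card < s)).eq_empty_or_nonempty with h | ⟨z, hz⟩
    · rw [h]; simp
    · obtain ⟨h1, h2⟩ := mem_filter.1 hz
      rw [cls_congr (mem_cls.1 h1)] at h2
      exact (card_filter_le _ _).trans h2.le
  have hsub : big (mrg l x y) s ⊆ big l s ∪ (((cls l x).filter (fun z => (cls l z).card < s)) ∪
      ((cls l y).filter (fun z => (cls l z).card < s))) := by
    intro z hz
    rw [mem_big] at hz
    rw [mem_union, mem_union, mem_filter, mem_filter, mem_big, mem_cls, mem_cls]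
    by_cases h0 : s ≤ (cls l z).card
    · exact Or.inl h0
    · by_cases h1 : l z = l x ∨ l z = l y
      · rcases h1 with h1 | h1
        · exact Or.inr (Or.inl ⟨h1, by omega⟩)
        · exact Or.inr (Or.inr ⟨h1, by omega⟩)
      · exact Or.inl (hz.trans (cls_mrg_out l x y z h1))
  have h1 := card_le_card hsub
  have h2 := card_union_le (big l s) (((cls l x).filter (fun z => (cls l z).card < s)) ∪
      ((cls l y).filter (fun z => (cls l z).card < s)))
  have h3 := card_union_le ((cls l x).filter (fun z => (cls l z).card < s))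
      ((cls l y).filter (fun z => (cls l z).card < s))
  have h4 := key x
  have h5 := key y
  omega

/-- ordered pairs of distinct vertices in one class -/
def inner {n : ℕ} (l : Fin n → Fin n) : Finset (Fin n × Fin n) :=
  univ.filter (fun p => p.1 ≠ p.2 ∧ l p.1 = l p.2)

lemma card_inner {n : ℕ} (l : Fin n → Fin n) (v : ℕ) :
    (inner l).card ≤ v * (big l 2).card + (big l v).card ^ 2 := by
  have hsub : inner l ⊆ ((big l 2).biUnion (fun x =>
      ((cls l x).filter (fun _ => (cls l x).card < v)).image (fun y => (x, y)))) ∪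
      (big l v ×ˢ big l v) := by
    rintro ⟨x, y⟩ hp
    simp only [inner, mem_filter, mem_univ, true_and] at hp
    obtain ⟨h1, h2⟩ := hp
    rw [mem_union]
    by_cases h : (cls l x).card < v
    · refine Or.inl (mem_biUnion.2 ⟨x, ?_, mem_image.2 ⟨y, mem_filter.2 ⟨mem_cls.2 h2.symm, h⟩, rfl⟩⟩)
      rw [mem_big]
      have : ({x, y} : Finset (Fin n)) ⊆ cls l x := by
        intro z hz
        rw [mem_insert, mem_singleton] at hz
        rcases hz with rfl | rfl
        · exact mem_cls.2 rfl
        · exact mem_cls.2 h2.symm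
      have h3 := card_le_card this
      rwa [card_pair h1] at h3
    · refine Or.inr (mem_product.2 ⟨mem_big.2 (by simpa using h), mem_big.2 ?_⟩)
      rw [← cls_congr h2]
      simpa using h
  refine (card_le_card hsub).trans ((card_union_le _ _).trans (add_le_add ?_ ?_))
  · refine card_biUnion_le.trans ?_
    refine (sum_le_sum (g := fun _ => v) fun x _ => ?_).trans ?_
    · refine card_image_le.trans ?_
      by_cases h : (cls l x).card < v
      · exact (card_filter_le _ _).trans h.le
      · simp [h]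
    · simp [mul_comm]
  · rw [card_product, pow_two]

/-- If every edge of F between two classes has class sizes adding up to at least s, F is small. -/
lemma card_free_le {n : ℕ} (l : Fin n → Fin n) (s : ℕ) (hs : 2 ≤ s) (F : Finset (Sym2 (Fin n)))
    (hF : ∀ e ∈ F, ¬ e.IsDiag)
    (h : ∀ x y, s(x, y) ∈ F → l x ≠ l y → s ≤ (cls l x).card + (cls l y).card) :
    F.card ≤ (inner l).card + ∑ i ∈ Ico 1 s, (big l i).card * (big l (s - i)).card := by
  have hsub : F ⊆ (inner l ∪ (Ico 1 s).biUnion (fun i => big l i ×ˢ big l (s - i))).image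
      (fun p => s(p.1, p.2)) := by
    intro e he
    induction e using Sym2.ind with
    | h x y =>
      refine mem_image.2 ⟨(x, y), ?_, rfl⟩
      rw [mem_union]
      by_cases hxy : l x = l y
      · refine Or.inl ?_
        have := hF _ he
        simp only [inner, mem_filter, mem_univ, true_and]
        exact ⟨by simpa using this, hxy⟩
      · have h1 := h x y he hxy
        have h2 := cls_pos l x
        have h3 := cls_pos l y
        refine Or.inr (mem_biUnion.2 ⟨min (cls l x).card (s - 1), mem_Ico.2 (by omega),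
          mem_product.2 ⟨mem_big.2 (by simp), mem_big.2 (by simp only; omega)⟩⟩)
  refine (card_le_card hsub).trans (card_image_le.trans ((card_union_le _ _).trans
    (add_le_add le_rfl (card_biUnion_le.trans (le_of_eq ?_)))))
  exact sum_congr rfl fun i _ => card_product _ _

/-- If F has more edges than there are pairs inside classes, some edge of F joins two classes. -/
lemma exists_cross {n : ℕ} (l : Fin n → Fin n) (F : Finset (Sym2 (Fin n)))
    (hF : ∀ e ∈ F, ¬ e.IsDiag) (h : (inner l).card < F.card) :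
    ∃ x y, s(x, y) ∈ F ∧ l x ≠ l y ∧ ∀ x' y', s(x', y') ∈ F → l x' ≠ l y' →
      (cls l x).card + (cls l y).card ≤ (cls l x').card + (cls l y').card := by
  have h1 : ((inner l).image (fun p => s(p.1, p.2))).card < F.card :=
    lt_of_le_of_lt card_image_le h
  obtain ⟨e, he, hn⟩ := exists_mem_notMem_of_card_lt_card h1
  have hne : (univ.filter (fun p : Fin n × Fin n => s(p.1, p.2) ∈ F ∧ l p.1 ≠ l p.2)).Nonempty := by
    induction e using Sym2.ind with
    | h x y =>
      refine ⟨(x, y), mem_filter.2 ⟨mem_univ _, he, fun hxy => hn ?_⟩⟩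
      refine mem_image.2 ⟨(x, y), ?_, rfl⟩
      have := hF _ he
      simp only [inner, mem_filter, mem_univ, true_and]
      exact ⟨by simpa using this, hxy⟩
  obtain ⟨p, hp, hmin⟩ := exists_min_image _ (fun p : Fin n × Fin n =>
    (cls l p.1).card + (cls l p.2).card) hne
  obtain ⟨_, hp1, hp2⟩ := mem_filter.1 hp
  exact ⟨p.1, p.2, hp1, hp2, fun x' y' a b => hmin (x', y') (mem_filter.2 ⟨mem_univ _, a, b⟩)⟩

/-- labels are constant along walks -/
lemma label_reach {n : ℕ} (l : Fin n → Fin n) (A : Finset (Sym2 (Fin n)))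
    (hA : ∀ x y, s(x, y) ∈ A → l x = l y) {x y : Fin n}
    (h : (SimpleGraph.fromEdgeSet (A : Set (Sym2 (Fin n)))).Reachable x y) : l x = l y := by
  obtain ⟨p⟩ := h
  induction p with
  | nil => rfl
  | cons a _ ih =>
    rw [SimpleGraph.fromEdgeSet_adj] at a
    exact (hA _ _ a.1).trans ih

lemma acyc_insert {n : ℕ} (l : Fin n → Fin n) (A : Finset (Sym2 (Fin n)))
    (hA : ∀ x y, s(x, y) ∈ A → l x = l y)
    (hac : (SimpleGraph.fromEdgeSet (A : Set (Sym2 (Fin n)))).IsAcyclic) (x y : Fin n)
    (hxy : l x ≠ l y) :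
    (SimpleGraph.fromEdgeSet ((insert s(x, y) A : Finset _) : Set (Sym2 (Fin n)))).IsAcyclic := by
  have h := hac.sup_edge_of_not_reachable (u := x) (v := y) (fun h => hxy (label_reach l A hA h))
  refine h.anti ?_
  intro u w huw
  rw [SimpleGraph.fromEdgeSet_adj, coe_insert, Set.mem_insert_iff] at huw
  rw [SimpleGraph.sup_adj, SimpleGraph.fromEdgeSet_adj, SimpleGraph.adj_edge]
  rcases huw with ⟨h1 | h1, h2⟩
  · exact Or.inr ⟨h1.symm, h2⟩
  · exact Or.inl ⟨h1, h2⟩

lemma label_mrg {n : ℕ} (l : Fin n → Fin n) (A : Finset (Sym2 (Fin n)))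
    (hA : ∀ x y, s(x, y) ∈ A → l x = l y) (x y : Fin n) :
    ∀ u w, s(u, w) ∈ insert s(x, y) A → mrg l x y u = mrg l x y w := by
  intro u w h
  rw [mem_insert, Sym2.eq_iff] at h
  unfold mrg
  rcases h with (⟨rfl, rfl⟩ | ⟨rfl, rfl⟩) | h
  · simp
  · simp
  · rw [hA u w h]

/-- An edge added inside a class with fewer than v vertices creates no copy of H. -/
lemma no_copy_small {V : Type} [Fintype V] (H : SimpleGraph V) (hc : H.Connected)
    (hH : ¬ H.IsAcyclic) {n : ℕ} (l : Fin n → Fin n) (A : Finset (Sym2 (Fin n)))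
    (hA : ∀ x y, s(x, y) ∈ A → l x = l y)
    (hac : (SimpleGraph.fromEdgeSet (A : Set (Sym2 (Fin n)))).IsAcyclic) (x y : Fin n)
    (hxy : l x = l y) (hx : (cls l x).card < Fintype.card V) :
    ¬ H.IsContained
      (SimpleGraph.fromEdgeSet ((insert s(x, y) A : Finset _) : Set (Sym2 (Fin n)))) := by
  classical
  rintro ⟨f⟩
  have hA' : ∀ u w, s(u, w) ∈ insert s(x, y) A → l u = l w := by
    intro u w h
    rw [mem_insert, Sym2.eq_iff] at h
    rcases h with (⟨rfl, rfl⟩ | ⟨rfl, rfl⟩) | h
    · exact hxy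
    · exact hxy.symm
    · exact hA u w h
  obtain ⟨g, ginj, gadj, hconst⟩ : ∃ g : V → Fin n, Function.Injective g ∧
      (∀ a b, H.Adj a b → s(g a, g b) ∈ insert s(x, y) A ∧ g a ≠ g b) ∧
      ∀ a b, l (g a) = l (g b) := by
    refine ⟨f.toHom, f.injective, fun a b hab => ?_, fun a b =>
      label_reach l _ hA' ((hc.preconnected a b).map f.toHom)⟩
    exact (SimpleGraph.fromEdgeSet_adj _).1 (f.toHom.map_adj hab)
  have hne : ∀ a : V, g a ≠ x := by
    intro a ha
    have : (univ : Finset V).card ≤ (cls l x).card := by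
      refine card_le_card_of_injOn g (fun b _ => ?_) (fun b _ c _ h => ginj h)
      rw [mem_coe, mem_cls, ← ha]
      exact hconst b a
    rw [card_univ] at this
    omega
  refine hH (SimpleGraph.IsAcyclic.comap
    (G' := SimpleGraph.fromEdgeSet (A : Set (Sym2 (Fin n)))) ⟨g, ?_⟩ ginj hac)
  intro a b hab
  have h1 := gadj a b hab
  rw [mem_insert, Sym2.eq_iff] at h1
  rw [SimpleGraph.fromEdgeSet_adj]
  rcases h1 with ⟨(⟨h1, _⟩ | ⟨_, h1⟩) | h1, h2⟩
  · exact (hne a h1).elim
  · exact (hne b h1).elim
  · exact ⟨h1, h2⟩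

end Pool.Agent.P.MP_58cc54_co
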