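import Mathlib
import Pool.Agent.P.MP_58cc54_co.ULab
import Pool.Agent.P.MP_58cc54_co.Game

set_option autoImplicit false

namespace Pool.Agent.P.MP_58cc54_co

open Finset

/-- Avoider joins two classes of least total size. If Enforcer wins all the same, the number of
edges left at the last move of Avoider is between 1 and the square of α v. -/
lemma ugame {V : Type} [Fintype V] (H : SimpleGraph V) (hc : H.Connected) (hH : ¬ H.IsAcyclic)
    (v : ℕ) (hv : v = Fintype.card V) (hv2 : 2 ≤ v)
    (n b : ℕ) (U : Finset (Sym2 (Fin n))) (hU : ∀ e ∈ U, ¬ e.IsDiag)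
    (S : Set (Finset (Sym2 (Fin n)) × Finset (Sym2 (Fin n))))
    (h0 : ((∅ : Finset (Sym2 (Fin n))), (∅ : Finset (Sym2 (Fin n)))) ∈ S)
    (hS : ∀ p ∈ S, (U \ (p.1 ∪ p.2) = ∅ →
        H.IsContained (SimpleGraph.fromEdgeSet (p.1 : Set (Sym2 (Fin n))))) ∧
      ∀ e ∈ U \ (p.1 ∪ p.2), ∃ T : Finset (Sym2 (Fin n)), T ⊆ U \ (insert e (p.1 ∪ p.2)) ∧
        T.card = min b (U \ (insert e (p.1 ∪ p.2))).card ∧ (insert e p.1, p.2 ∪ T) ∈ S)
    (α D : ℕ → ℕ) (h1 : n ≤ α 1)
    (hD : ∀ s, 2 ≤ s → s ≤ v → v * α 2 + α v ^ 2 + ∑ i ∈ Ico 1 s, α i * α (s - i) ≤ D s)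
    (hα : ∀ s, 2 ≤ s → s ≤ v → D s ≤ b + 1 ∨ 2 * s * D s ≤ α s * (b + 1))
    (hP : v * α 2 + α v ^ 2 ≤ b + 1) :
    ∃ m r, U.card = m * (b + 1) + r ∧ 1 ≤ r ∧ r ≤ α v ^ 2 := by
  by_contra hno
  have nocopy : ∀ A : Finset (Sym2 (Fin n)),
      (SimpleGraph.fromEdgeSet (A : Set (Sym2 (Fin n)))).IsAcyclic →
      ¬ H.IsContained (SimpleGraph.fromEdgeSet (A : Set (Sym2 (Fin n)))) := by
    rintro A hA ⟨f⟩
    exact hH (hA.comap f.toHom f.injective)
  have main : ∀ (c : ℕ) (A E : Finset (Sym2 (Fin n))) (l : Fin n → Fin n),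
      (U \ (A ∪ E)).card = c → (A, E) ∈ S → c + A.card * (b + 1) = U.card →
      (∀ s, 2 ≤ s → s ≤ v → (big l s).card = 0 ∨
        (b + 1 < D s ∧ (big l s).card * (b + 1) + 2 * s * c ≤ 2 * s * D s)) →
      (∀ x y, s(x, y) ∈ A → l x = l y) →
      (SimpleGraph.fromEdgeSet (A : Set (Sym2 (Fin n)))).IsAcyclic → False := by
    intro c
    induction c using Nat.strong_induction_on with
    | _ c ih =>
      intro A E l hc' hAE h2 hinv hA hac
      obtain ⟨hS1, hS2⟩ := hS (A, E) hAE
      simp only at hS1 hS2
      by_cases hc0 : c = 0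
      · exact nocopy A hac (hS1 (card_eq_zero.1 (hc'.trans hc0)))
      have hF : ∀ e ∈ U \ (A ∪ E), ¬ e.IsDiag := fun e he => hU e (mem_sdiff.1 he).1
      have hbig : ∀ s, 1 ≤ s → s ≤ v → (big l s).card ≤ α s := by
        intro s hs1 hs2
        by_cases hs : s = 1
        · subst hs
          exact (card_le_univ _).trans (by simpa using h1)
        rcases hinv s (by omega) hs2 with h | ⟨h3, h4⟩
        · omega
        · rcases hα s (by omega) hs2 with h5 | h5
          · omega
          · exact Nat.le_of_mul_le_mul_right (c := b + 1) (by omega) (by omega)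
      have hin : (inner l).card ≤ v * α 2 + α v ^ 2 :=
        (card_inner l v).trans (add_le_add (Nat.mul_le_mul_left _ (hbig 2 (by omega) hv2))
          (Nat.pow_le_pow_left (hbig v (by omega) le_rfl) 2))
      -- the position after a move
      have move : ∀ e ∈ U \ (A ∪ E), ∃ E' : Finset (Sym2 (Fin n)), (insert e A, E') ∈ S ∧
          (U \ (insert e A ∪ E')).card = c - (b + 1) := by
        intro e he
        obtain ⟨T, hT1, hT2, hT3⟩ := hS2 e he
        have e1 : U \ (insert e (A ∪ E)) = (U \ (A ∪ E)).erase e := by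
          ext f; simp only [mem_sdiff, mem_insert, mem_erase]; tauto
        have e2 : U \ (insert e A ∪ (E ∪ T)) = (U \ (insert e (A ∪ E))) \ T := by
          ext f; simp only [mem_sdiff, mem_insert, mem_union]; tauto
        have c1 : (U \ (insert e (A ∪ E))).card = c - 1 := by
          rw [e1, card_erase_of_mem he, hc']
        refine ⟨E ∪ T, hT3, ?_⟩
        rw [e2, card_sdiff_of_subset hT1, hT2, c1]
        omega
      by_cases hlast : c ≤ b + 1
      · by_cases hsmall : c ≤ α v ^ 2
        · exact hno ⟨A.card, c, by omega, by omega, hsmall⟩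
        obtain ⟨x, y, he, hx, _⟩ := exists_edge_not_in (U \ (A ∪ E)) (big l v) (big l v) (by
          rw [hc']
          have := hbig v (by omega) le_rfl
          have := Nat.mul_le_mul this this
          rw [pow_two] at hsmall
          omega)
        obtain ⟨E', hE1, hE2⟩ := move _ he
        have hcont := (hS _ hE1).1 (card_eq_zero.1 (by simp only; omega))
        simp only at hcont
        by_cases hxy : l x = l y
        · refine no_copy_small H hc hH l A hA hac x y hxy ?_ hcont
          by_contra hge
          refine hx ⟨mem_big.2 (by omega), mem_big.2 ?_⟩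
          rw [← cls_congr hxy]
          omega
        · exact nocopy _ (acyc_insert l A hA hac x y hxy) hcont
      · obtain ⟨x, y, he, hxy, hmin⟩ := exists_cross l (U \ (A ∪ E)) hF (by omega)
        obtain ⟨E', hE1, hE2⟩ := move _ he
        have heA : s(x, y) ∉ A := fun h => (mem_sdiff.1 he).2 (mem_union_left _ h)
        obtain ⟨c', rfl⟩ : ∃ c', c = c' + (b + 1) := ⟨c - (b + 1), by omega⟩
        refine ih c' (by omega) (insert s(x, y) A) E' (mrg l x y) (by omega) hE1 ?_ ?_
          (label_mrg l A hA x y) (acyc_insert l A hA hac x y hxy)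
        · rw [card_insert_of_notMem heA, add_mul]
          omega
        · intro s hs1 hs2
          by_cases hlt : (cls l x).card + (cls l y).card < s
          · have h3 := big_mrg_small l x y s hlt
            rcases hinv s hs1 hs2 with h | ⟨h4, h5⟩
            · exact Or.inl (by omega)
            · refine Or.inr ⟨h4, le_trans (add_le_add (Nat.mul_le_mul_right _ h3)
                (Nat.mul_le_mul_left _ (by omega))) h5⟩
          · have h3 := big_mrg l x y s
            have h4 := card_free_le l s hs1 (U \ (A ∪ E)) hF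
              (fun x' y' a b => le_trans (by omega) (hmin x' y' a b))
            have h5 : ∑ i ∈ Ico 1 s, (big l i).card * (big l (s - i)).card
                ≤ ∑ i ∈ Ico 1 s, α i * α (s - i) := by
              refine sum_le_sum fun i hi => ?_
              rw [mem_Ico] at hi
              exact Nat.mul_le_mul (hbig i (by omega) (by omega)) (hbig _ (by omega) (by omega))
            have h6 := hD s hs1 hs2
            have h7 : c' + (b + 1) ≤ D s := by omega
            refine Or.inr ⟨by omega, ?_⟩
            have h8 := Nat.mul_le_mul_right (b + 1) h3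
            have h9 : ((big l s).card + 2 * s) * (b + 1) + 2 * s * c'
                = (big l s).card * (b + 1) + 2 * s * (c' + (b + 1)) := by ring
            rcases hinv s hs1 hs2 with h | ⟨_, h10⟩
            · have := Nat.mul_le_mul_left (2 * s) h7
              rw [h] at h8 h9
              omega
            · omega
  refine main _ ∅ ∅ id rfl h0 (by simp) (fun s hs _ => Or.inl ?_) (by simp) (by simp)
  rw [card_eq_zero, eq_empty_iff_forall_notMem]
  intro x hx
  rw [mem_big] at hx
  have : cls id x = {x} := by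
    ext y; simp [mem_cls]
  rw [this, card_singleton] at hx
  omega

end Pool.Agent.P.MP_58cc54_co
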