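import Mathlib
import Pool.Agent.P.MP_58cc54_co.Sift
import Pool.Agent.P.MP_58cc54_co.Roots

set_option autoImplicit false

namespace Pool.Agent.P.MP_58cc54_co

open Finset

lemma exists_good_gen (K M i0 j J E a k : ℕ) (hi0 : 1 ≤ i0) (hK : 4 * K ≤ 2 ^ i0) (hij : i0 ≤ j)
    (hM : ∀ p : ℕ, p.Prime → 2 ^ i0 < p → ¬ p ∣ M) (hKj : 8 * K + 1 ≤ 2 ^ j)
    (hjJ : j ≤ J + a) (haJ : a < J)
    (H1 : 8 * ((j : ℝ) ^ (32 * K)) ^ 2 ≤ 2 ^ k)
    (H2 : (K : ℝ) * ((((J + a : ℕ) : ℝ) / j) ^ 16 * (8 * (2 * a + 1) / j)) ≤ 1 / 5)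
    (H3 : j * k + k + a + 1 + J ≤ E) (H4 : 2 * K * 2 ^ k ≤ 2 ^ j)
    (H5 : 2 * K * 2 ^ (k + a) * 2 ^ J ≤ 2 ^ E) :
    ∃ t, 2 ^ E ≤ t ∧ t < 2 ^ E + 2 ^ E ∧
      (∀ p ∈ PR i0 j, ∀ r ∈ Icc 1 K, ¬ (p : ℤ) ∣ fq M r t) ∧
      (∀ r ∈ Icc 1 K, ∀ T ∈ fam j J a, ¬ ∀ p ∈ T, (p : ℤ) ∣ fq M r t) ∧
      (∀ r ∈ Icc 1 K, ∀ p ∈ PR j (J + a), ¬ ((p ^ 2 : ℕ) : ℤ) ∣ fq M r t) := by
  classical
  by_contra hno
  set X : ℕ := 2 ^ E with hX
  set P := PR i0 j with hP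
  let B : ℕ → ℕ → Prop := fun p t => ∃ r ∈ Icc 1 K, (p : ℤ) ∣ fq M r t
  have hPp : ∀ p ∈ P, p.Prime := fun p hp => (mem_PR.1 hp).2.2
  have hB : ∀ p ∈ P, Function.Periodic (B p) p := by
    intro p _ t
    apply propext
    refine exists_congr fun r => and_congr_right fun _ => ?_
    have := fq_periodic M r p t
    simp only at this
    rw [this]
  have hρ : ∀ p ∈ P, cnt (B p) 0 p ≤ 2 * K := by
    intro p hp
    refine (cnt_le_sum (Icc 1 K) (B p) (fun r t => (p : ℤ) ∣ fq M r t) 0 p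
      (fun t _ _ h => h)).trans ?_
    refine (sum_le_sum fun r _ => roots_prime M r p (hPp p hp) (hM p (hPp p hp) (mem_PR.1 hp).1)).trans ?_
    simp [mul_comm]
  set Ω : ℝ := (j : ℝ) ^ (32 * K) with hΩdef
  have hj1 : (1 : ℝ) ≤ j := by exact_mod_cast hi0.trans hij
  have hΩ1 : 1 ≤ Ω := one_le_pow₀ hj1
  have hΩ : Real.exp (2 * ∑ p ∈ P, (cnt (B p) 0 p : ℝ) / p) ≤ Ω := by
    have h1 := exp_sum_PR i0 j (4 * K) hi0 hij
    have h2 : ((j : ℝ) / i0) ^ (8 * (4 * K)) ≤ Ω := by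
      rw [hΩdef, show 8 * (4 * K) = 32 * K by ring]
      refine pow_le_pow_left₀ (by positivity) ?_ _
      exact div_le_self (by positivity) (by exact_mod_cast hi0)
    refine le_trans (Real.exp_le_exp.2 ?_) (h1.trans h2)
    rw [mul_sum, mul_sum]
    refine sum_le_sum fun p hp => ?_
    have h3 : (cnt (B p) 0 p : ℝ) ≤ 2 * K := by exact_mod_cast hρ p hp
    have h4 : (cnt (B p) 0 p : ℝ) / p ≤ 2 * K / p :=
      div_le_div_of_nonneg_right h3 (Nat.cast_nonneg _)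
    push_cast
    have e : (4 * K : ℝ) * (1 / p) = 2 * (2 * K / p) := by ring
    rw [e]
    linarith
  obtain ⟨q1, q2, q3⟩ := sieve_quantities P (fun p => (cnt (B p) 0 p : ℝ)) (2 ^ j) Ω
    (one_le_pow₀ (by norm_num))
    (fun p hp => ⟨(hPp p hp).pos, by exact_mod_cast (mem_PR.1 hp).2.1⟩)
    (fun p hp => ⟨Nat.cast_nonneg _, by
      have h1 := hρ p hp
      have h2 := (mem_PR.1 hp).1
      have : 2 * cnt (B p) 0 p ≤ p := by omega
      exact_mod_cast this⟩) hΩ k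
  set V := ∏ p ∈ P, (1 - (cnt (B p) 0 p : ℝ) / p) with hV
  set e := esym (fun p => (cnt (B p) 0 p : ℝ) / p) P k with he
  set Z : ℝ := (2 ^ j) ^ k with hZ
  set Y : ℝ := 2 ^ (J + a) with hY
  have hΩ0 : 0 < Ω := by linarith
  have hV0 : 0 < V := lt_of_lt_of_le (by positivity) q1
  have he0 : 0 ≤ e := esym_nonneg _ P (fun p _ => by positivity) k
  have heV : 8 * e ≤ V := by
    have h1 : 8 * Ω ^ 2 * e ≤ Ω := le_trans (mul_le_mul_of_nonneg_right H1 he0) q2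
    have h2 : 8 * e * Ω ≤ 1 := by
      refine le_of_mul_le_mul_right ?_ hΩ0
      nlinarith
    have h3 : 8 * e ≤ 1 / Ω := by rwa [le_div_iff₀ hΩ0]
    linarith
  have hX0 : (0 : ℝ) < X := by rw [hX]; positivity
  -- lower bound
  have low : 3 / 4 * X * V - Z * Ω ≤ cnt (fun t => ∀ p ∈ P, ¬ B p t) X X := by
    have h := sift_bound P ∅ hPp (by simp) (by simp) B B hB (by simp) X k
    simp only [notMem_empty, false_imp_iff, implies_true, true_and, prod_empty, mul_one,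
      one_mul] at h
    rw [← hV, ← he] at h
    have := (abs_le.1 h).1
    nlinarith
  -- upper bounds
  have up1 : ∀ r ∈ Icc 1 K, ∀ T ∈ fam j J a,
      (cnt (fun t => (∀ p ∈ T, (p : ℤ) ∣ fq M r t) ∧ ∀ p ∈ P, ¬ B p t) X X : ℝ)
        ≤ (∏ p ∈ T, (2 : ℝ) / p) * (5 / 4 * X * V + Y * (Z * Ω)) := by
    intro r _ T hT
    obtain ⟨hT1, hT2, hT3⟩ := mem_filter.1 hT
    have hT1' : ∀ p ∈ T, p ∈ PR j (J + a) := fun p hp => mem_powerset.1 hT1 hp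
    have hTp : ∀ p ∈ T, p.Prime := fun p hp => (mem_PR.1 (hT1' p hp)).2.2
    have hij2 : 2 ^ i0 ≤ 2 ^ j := Nat.pow_le_pow_right (by norm_num) hij
    have h := sift_bound P T hPp hTp (by
        rw [disjoint_left]
        intro p hp hp'
        have h1 := (mem_PR.1 (hT1' p hp)).1
        have h2 := (mem_PR.1 hp').2.1
        omega) B (fun p t => (p : ℤ) ∣ fq M r t) hB (fun p _ => fq_periodic M r p) X k
    rw [← hV, ← he] at h
    have hc : ∀ p ∈ T, (cnt (fun t => (p : ℤ) ∣ fq M r t) 0 p : ℝ) ≤ 2 := fun p hp => by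
      have := roots_prime M r p (hTp p hp) (hM p (hTp p hp) (by
        have := (mem_PR.1 (hT1' p hp)).1
        omega))
      exact_mod_cast this
    set γ := ∏ p ∈ T, ((cnt (fun t => (p : ℤ) ∣ fq M r t) 0 p : ℝ) / p) with hγ
    set φ := ∏ p ∈ T, (2 : ℝ) / p with hφ
    have hγφ : γ ≤ φ := prod_le_prod (fun p _ => by positivity)
      fun p hp => div_le_div_of_nonneg_right (hc p hp) (Nat.cast_nonneg _)
    have hγ0 : 0 ≤ γ := prod_nonneg fun p _ => by positivity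
    have hR : ∏ p ∈ T, (cnt (fun t => (p : ℤ) ∣ fq M r t) 0 p : ℝ) ≤ φ * Y := by
      have h1 : ∏ p ∈ T, (cnt (fun t => (p : ℤ) ∣ fq M r t) 0 p : ℝ) ≤ ∏ p ∈ T, (2 : ℝ) :=
        prod_le_prod (fun p _ => by positivity) hc
      have h2 : ∏ p ∈ T, (2 : ℝ) = φ * ∏ p ∈ T, (p : ℝ) := by
        rw [hφ, ← prod_mul_distrib]
        refine prod_congr rfl fun p hp => ?_
        have : (p : ℝ) ≠ 0 := by exact_mod_cast (hTp p hp).ne_zero
        field_simp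
      have h3 : ∏ p ∈ T, (p : ℝ) ≤ Y := by
        rw [hY, add_comm, pow_add, ← Nat.cast_prod]
        exact_mod_cast hT3
      rw [h2] at h1
      exact h1.trans (mul_le_mul_of_nonneg_left h3 (hγ0.trans hγφ))
    have hS0 : 0 ≤ ∑ i ∈ range (k + 1), esym (fun p => (cnt (B p) 0 p : ℝ)) P i :=
      sum_nonneg fun i _ => esym_nonneg _ P (fun p _ => Nat.cast_nonneg _) i
    have h5 := mul_le_mul hR q3 hS0 (mul_nonneg (hγ0.trans hγφ) (by positivity))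
    have h6 := (abs_le.1 h).2
    have h7 : X * γ * (8 * e) ≤ X * γ * V := mul_le_mul_of_nonneg_left heV (by positivity)
    have h8 : X * γ * V ≤ X * φ * V :=
      mul_le_mul_of_nonneg_right (mul_le_mul_of_nonneg_left hγφ hX0.le) hV0.le
    nlinarith
  have up2 : ∀ r ∈ Icc 1 K, ∀ p ∈ PR j (J + a),
      (cnt (fun t => ((p ^ 2 : ℕ) : ℤ) ∣ fq M r t) X X : ℝ) ≤ 2 * X * (1 / (p : ℝ) ^ 2) + 2 := by
    intro r hr p hp
    obtain ⟨h1, h2, h3⟩ := mem_PR.1 hp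
    have hij2 : 2 ^ i0 ≤ 2 ^ j := Nat.pow_le_pow_right (by norm_num) hij
    have hc := roots_sq M r p h3 (hM p h3 (by omega)) (by
      have := (mem_Icc.1 hr).2
      omega)
    have h := cnt_approx _ (p ^ 2) (pow_pos h3.pos 2) (fq_periodic M r (p ^ 2)) X X
    have hc' : (cnt (fun t => ((p ^ 2 : ℕ) : ℤ) ∣ fq M r t) 0 (p ^ 2) : ℝ) ≤ 2 := by
      exact_mod_cast hc
    have h4 := (abs_le.1 h).2
    have h5 : (cnt (fun t => ((p ^ 2 : ℕ) : ℤ) ∣ fq M r t) 0 (p ^ 2) : ℝ) / ((p ^ 2 : ℕ) : ℝ)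
        ≤ 2 * (1 / (p : ℝ) ^ 2) := by
      rw [mul_one_div]
      push_cast
      push_cast at hc'
      exact div_le_div_of_nonneg_right hc' (by positivity)
    have h6 := mul_le_mul_of_nonneg_left h5 hX0.le
    nlinarith
  -- covering
  have cover : cnt (fun t => ∀ p ∈ P, ¬ B p t) X X
      ≤ ∑ r ∈ Icc 1 K, ∑ T ∈ fam j J a,
          cnt (fun t => (∀ p ∈ T, (p : ℤ) ∣ fq M r t) ∧ ∀ p ∈ P, ¬ B p t) X X
        + ∑ r ∈ Icc 1 K, ∑ p ∈ PR j (J + a), cnt (fun t => ((p ^ 2 : ℕ) : ℤ) ∣ fq M r t) X X := by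
    refine (cnt_or_le _
      (fun t => ∃ r ∈ Icc 1 K, ∃ T ∈ fam j J a, (∀ p ∈ T, (p : ℤ) ∣ fq M r t) ∧ ∀ p ∈ P, ¬ B p t)
      (fun t => ∃ r ∈ Icc 1 K, ∃ p ∈ PR j (J + a), ((p ^ 2 : ℕ) : ℤ) ∣ fq M r t) X X ?_).trans
      (add_le_add ?_ ?_)
    · intro t h1 h2 h3
      by_contra hcon
      apply hno
      refine ⟨t, h1, h2, ?_, ?_, ?_⟩
      · intro p hp r hr hd
        exact h3 p hp ⟨r, hr, hd⟩
      · intro r hr T hT hd
        exact hcon (Or.inl ⟨r, hr, T, hT, hd, h3⟩)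
      · intro r hr p hp hd
        exact hcon (Or.inr ⟨r, hr, p, hp, hd⟩)
    · refine (cnt_le_sum (Icc 1 K) _ (fun r t => ∃ T ∈ fam j J a,
        (∀ p ∈ T, (p : ℤ) ∣ fq M r t) ∧ ∀ p ∈ P, ¬ B p t) X X (fun t _ _ h => h)).trans
        (sum_le_sum fun r _ => cnt_le_sum _ _ _ X X (fun t _ _ h => h))
    · refine (cnt_le_sum (Icc 1 K) _ (fun r t => ∃ p ∈ PR j (J + a),
        ((p ^ 2 : ℕ) : ℤ) ∣ fq M r t) X X (fun t _ _ h => h)).trans
        (sum_le_sum fun r _ => cnt_le_sum _ _ _ X X (fun t _ _ h => h))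
  set σ := ∑ T ∈ fam j J a, ∏ p ∈ T, (2 : ℝ) / p with hσ
  have hσb := sigma_bound j J a (hi0.trans hij) hjJ haJ
  rw [← hσ] at hσb
  have s1 : ((∑ r ∈ Icc 1 K, ∑ T ∈ fam j J a,
      cnt (fun t => (∀ p ∈ T, (p : ℤ) ∣ fq M r t) ∧ ∀ p ∈ P, ¬ B p t) X X : ℕ) : ℝ)
      ≤ K * (σ * (5 / 4 * X * V + Y * (Z * Ω))) := by
    push_cast
    refine (sum_le_sum fun r hr => sum_le_sum (up1 r hr)).trans (le_of_eq ?_)
    rw [sum_const, ← sum_mul, Nat.card_Icc, nsmul_eq_mul]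
    simp [hσ]
  have s2 : ((∑ r ∈ Icc 1 K, ∑ p ∈ PR j (J + a),
      cnt (fun t => ((p ^ 2 : ℕ) : ℤ) ∣ fq M r t) X X : ℕ) : ℝ)
      ≤ K * (2 * X / 2 ^ j + 2 * Y) := by
    rw [Nat.cast_sum]
    have : ∀ r ∈ Icc 1 K, ((∑ p ∈ PR j (J + a),
        cnt (fun t => ((p ^ 2 : ℕ) : ℤ) ∣ fq M r t) X X : ℕ) : ℝ) ≤ 2 * X / 2 ^ j + 2 * Y := by
      intro r hr
      rw [Nat.cast_sum]
      refine (sum_le_sum (up2 r hr)).trans ?_
      rw [sum_add_distrib, ← mul_sum, sum_const, nsmul_eq_mul]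
      have h1 : ∑ p ∈ PR j (J + a), (1 : ℝ) / (p : ℝ) ^ 2 ≤ 1 / 2 ^ j := by
        have := sum_inv_sq (2 ^ j) (2 ^ (J + a)) Nat.one_le_two_pow
        push_cast at this
        refine le_trans (sum_le_sum_of_subset_of_nonneg (filter_subset _ _)
          (fun _ _ _ => by positivity)) this
      have h2 : ((PR j (J + a)).card : ℝ) ≤ Y := by
        have : (PR j (J + a)).card ≤ 2 ^ (J + a) := by
          refine (card_filter_le _ _).trans ?_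
          simp
        rw [hY]
        exact_mod_cast this
      have h3 := mul_le_mul_of_nonneg_left h1 (show (0 : ℝ) ≤ 2 * X by positivity)
      have e : 2 * (X : ℝ) / 2 ^ j = 2 * X * (1 / 2 ^ j) := by ring
      rw [e]
      linarith
    refine (sum_le_sum this).trans (le_of_eq ?_)
    rw [sum_const, Nat.card_Icc, nsmul_eq_mul]
    simp
  have fin := final_ineq X V Ω Z Y (2 ^ j) K σ (2 ^ k) hX0 q1 hΩ1 H1 (Nat.cast_nonneg _)
    (le_trans (mul_le_mul_of_nonneg_left hσb (Nat.cast_nonneg _)) H2) (by positivity)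
    (one_le_pow₀ (by norm_num)) (by positivity) ?_ (by exact_mod_cast H4) ?_
  · have cover' : (cnt (fun t => ∀ p ∈ P, ¬ B p t) X X : ℝ) ≤ _ := Nat.cast_le.2 cover
    rw [Nat.cast_add] at cover'
    linarith
  · rw [hZ, hY, hX]
    push_cast
    rw [← pow_mul, ← pow_add, ← pow_succ', ← pow_add]
    exact pow_le_pow_right₀ (by norm_num) (by omega)
  · rw [hY, hX]
    have : (2 * K * 2 ^ (k + a) * 2 ^ J : ℝ) ≤ 2 ^ E := by
      rw [hX] at H5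
      exact_mod_cast H5
    push_cast
    calc (2 * K * 2 ^ k * 2 ^ (J + a) : ℝ) = 2 * K * 2 ^ (k + a) * 2 ^ J := by ring
      _ ≤ 2 ^ E := this

end Pool.Agent.P.MP_58cc54_co
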