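import Mathlib
import Pool.Agent.P.MP_58cc54_co.NT
import Pool.Agent.P.MP_58cc54_co.UMain

set_option autoImplicit false

namespace Pool.Agent.P.MP_58cc54_co

open Finset Filter Topology

theorem nt_gen (q K C n₀ : ℕ) (hq : 1 ≤ q) : ∃ n : ℕ, n₀ ≤ n ∧ ∀ r m : ℕ, 1 ≤ r → r ≤ K →
    n ^ q ≤ C * m ^ (q + 1) → m ^ (q + 1) ≤ C * n ^ q →
    ¬ (m : ℤ) ∣ (n : ℤ) * (n - 1) - 2 * r := by
  set i0 := 4 * K + 1 with hi0
  set w := 2 ^ i0 with hw
  set M := (w.factorial) ^ 2 with hM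
  set a := C * (2 * M) ^ q + C * (2 * K) ^ (q + 1) with ha
  obtain ⟨k, hkB, hk⟩ := exists_k (17 * (32 * K) * 2)
    (n₀ + a + 8 * K + 3 + 40 * (2 * (q + 1)) ^ 16 * K * (2 * a + 1))
  have hk3 : 3 ≤ k := by omega
  have hkk : 3 * k ≤ k ^ 17 := by
    calc 3 * k ≤ k * k := Nat.mul_le_mul_right _ hk3
      _ = k ^ 2 := by ring
      _ ≤ k ^ 17 := Nat.pow_le_pow_right (by omega) (by norm_num)
  set j := k ^ 17 with hj
  have hjk : j ≤ j * k := Nat.le_mul_of_pos_right _ (by omega)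
  set u0 := 2 * (j * k) with hu0
  set J := q * u0 with hJ
  set E := J + u0 with hE
  have hJu : u0 ≤ J := Nat.le_mul_of_pos_left _ hq
  have hEJ : E * q = J * (q + 1) := by rw [hE, hJ]; ring
  have hw4 : 4 * K ≤ w := by
    have := Nat.lt_two_pow_self (n := i0)
    omega
  have hKk : 2 * K ≤ 2 ^ k := by
    have := Nat.lt_two_pow_self (n := k)
    omega
  have hMp : ∀ p : ℕ, p.Prime → 2 ^ i0 < p → ¬ p ∣ M := by
    intro p hp h1 h2
    have := (hp.dvd_factorial).1 (hp.dvd_of_dvd_pow h2)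
    omega
  obtain ⟨t, ht1, ht2, g1, g2, g3⟩ := exists_good_gen K M i0 j J E a k (by omega) hw4 (by omega) hMp
    (by
      have := Nat.lt_two_pow_self (n := j)
      omega) (by omega) (by omega)
    (by
      rw [hj]
      push_cast
      rw [← pow_mul, ← pow_mul, ← mul_assoc]
      exact hk)
    (by
      have hk0 : (0 : ℝ) < k := by exact_mod_cast (by omega : 0 < k)
      have hj0 : (0 : ℝ) < j := by exact_mod_cast (by omega : 0 < j)
      have h1 : ((J + a : ℕ) : ℝ) / j ≤ 2 * (q + 1) * k := by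
        rw [div_le_iff₀ hj0]
        have : J + a ≤ 2 * (q + 1) * k * j := by
          have : 2 * (q + 1) * k * j = q * (2 * (j * k)) + 2 * (j * k) := by ring
          rw [this, ← hu0, ← hJ]
          omega
        exact_mod_cast this
      have h2 : (((J + a : ℕ) : ℝ) / j) ^ 16 ≤ (2 * (q + 1) * k) ^ 16 :=
        pow_le_pow_left₀ (by positivity) h1 16
      have h3 : (40 * (2 * (q + 1)) ^ 16 * K * (2 * a + 1) : ℝ) ≤ k := by
        have : 40 * (2 * (q + 1)) ^ 16 * K * (2 * a + 1) ≤ k := by omega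
        exact_mod_cast this
      calc (K : ℝ) * ((((J + a : ℕ) : ℝ) / j) ^ 16 * (8 * (2 * a + 1) / j))
          ≤ K * ((2 * (q + 1) * k) ^ 16 * (8 * (2 * a + 1) / j)) :=
            mul_le_mul_of_nonneg_left (mul_le_mul_of_nonneg_right h2 (by positivity))
              (Nat.cast_nonneg _)
        _ = (40 * (2 * (q + 1)) ^ 16 * K * (2 * a + 1)) / k / 5 := by
            rw [hj]
            push_cast
            field_simp
            ring
        _ ≤ 1 / 5 := by
            refine div_le_div_of_nonneg_right ?_ (by norm_num)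
            rw [div_le_one hk0]
            exact h3)
    (by omega)
    (by
      calc 2 * K * 2 ^ k ≤ 2 ^ k * 2 ^ k := Nat.mul_le_mul_right _ hKk
        _ = 2 ^ (k + k) := by ring
        _ ≤ 2 ^ j := Nat.pow_le_pow_right (by norm_num) (by omega))
    (by
      calc 2 * K * 2 ^ (k + a) * 2 ^ J ≤ 2 ^ k * 2 ^ (k + a) * 2 ^ J :=
          Nat.mul_le_mul_right _ (Nat.mul_le_mul_right _ hKk)
        _ = 2 ^ (k + (k + a) + J) := by ring
        _ ≤ 2 ^ E := Nat.pow_le_pow_right (by norm_num) (by omega))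
  have hM1 : 1 ≤ M := pow_pos (Nat.factorial_pos _) 2
  have hXt : 2 ^ E ≤ M * t := ht1.trans (Nat.le_mul_of_pos_left _ hM1)
  refine ⟨M * t, ?_, ?_⟩
  · have := Nat.lt_two_pow_self (n := E)
    omega
  intro r m hr1 hrK hm1 hm2 hdvd
  have hr : r ∈ Icc 1 K := mem_Icc.2 ⟨hr1, hrK⟩
  have hdvd' : (m : ℤ) ∣ fq M r t := by
    unfold fq
    push_cast at hdvd
    exact hdvd
  obtain ⟨u, hu⟩ : 2 * r ∣ w.factorial := Nat.dvd_factorial (by omega) (by omega)
  set G : ℤ := u * w.factorial * t * (M * t - 1) - 1 with hG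
  have hfG : fq M r t = ((2 * r : ℕ) : ℤ) * G := by
    unfold fq
    have : (M : ℤ) = ((2 * r : ℕ) : ℤ) * u * w.factorial := by
      rw [hM, pow_two]
      nth_rewrite 1 [hu]
      push_cast
      ring
    rw [hG]
    nth_rewrite 1 [this]
    push_cast
    ring
  have hdn : m ∣ 2 * r * G.natAbs := by
    rw [hfG] at hdvd'
    have := Int.natAbs_dvd_natAbs.2 hdvd'
    rwa [Int.natAbs_mul, Int.natAbs_natCast, Int.natAbs_natCast] at this
  obtain ⟨d₁, d, hd₁, hd, hmd⟩ := exists_dvd_and_dvd_of_dvd_mul hdn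
  have hdG : (d : ℤ) ∣ G := Int.natCast_dvd.2 hd
  have hdf : (d : ℤ) ∣ fq M r t := by rw [hfG]; exact Dvd.dvd.mul_left hdG _
  have hd₁le : d₁ ≤ 2 * K := (Nat.le_of_dvd (by omega) hd₁).trans (by omega)
  have hd₁pos : 0 < d₁ := Nat.pos_of_dvd_of_pos hd₁ (by omega)
  have ha2 : a ≤ (2 ^ a) ^ (q + 1) :=
    (Nat.lt_two_pow_self (n := a)).le.trans (Nat.le_self_pow (by omega) _)
  have hEq : (2 ^ E) ^ q = (2 ^ J) ^ (q + 1) := by rw [← pow_mul, ← pow_mul, hEJ]
  have hup : d ≤ 2 ^ a * 2 ^ J := by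
    have h1 : d ≤ m := by rw [hmd]; exact Nat.le_mul_of_pos_left _ hd₁pos
    have h2 : m ^ (q + 1) ≤ (2 ^ a * 2 ^ J) ^ (q + 1) := by
      calc m ^ (q + 1) ≤ C * (M * t) ^ q := hm2
        _ ≤ C * (M * (2 * 2 ^ E)) ^ q :=
          Nat.mul_le_mul_left _ (Nat.pow_le_pow_left (Nat.mul_le_mul_left _ (by omega)) _)
        _ = (C * (2 * M) ^ q) * (2 ^ E) ^ q := by rw [mul_assoc, ← mul_pow]; congr 2; ring
        _ ≤ (2 ^ a) ^ (q + 1) * (2 ^ E) ^ q := Nat.mul_le_mul_right _ (by omega)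
        _ = (2 ^ a * 2 ^ J) ^ (q + 1) := by rw [hEq, mul_pow]
    exact h1.trans ((Nat.pow_le_pow_iff_left (by omega)).1 h2)
  have hlow : 2 ^ J ≤ 2 ^ a * d := by
    have h2 : (2 ^ J) ^ (q + 1) ≤ (2 ^ a * d) ^ (q + 1) := by
      calc (2 ^ J) ^ (q + 1) = (2 ^ E) ^ q := hEq.symm
        _ ≤ (M * t) ^ q := Nat.pow_le_pow_left hXt _
        _ ≤ C * m ^ (q + 1) := hm1
        _ ≤ C * (2 * K * d) ^ (q + 1) := by
          refine Nat.mul_le_mul_left _ (Nat.pow_le_pow_left ?_ _)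
          rw [hmd]; exact Nat.mul_le_mul_right _ hd₁le
        _ = (C * (2 * K) ^ (q + 1)) * d ^ (q + 1) := by rw [mul_pow, mul_assoc]
        _ ≤ (2 ^ a) ^ (q + 1) * d ^ (q + 1) := Nat.mul_le_mul_right _ (by omega)
        _ = (2 ^ a * d) ^ (q + 1) := by rw [mul_pow]
    exact (Nat.pow_le_pow_iff_left (by omega)).1 h2
  have hd0 : 0 < d := by
    rcases Nat.eq_zero_or_pos d with h | h
    · rw [h, mul_zero] at hlow
      have : 0 < 2 ^ J := by positivity
      omega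
    · exact h
  have hprime : ∀ p : ℕ, p.Prime → p ∣ d → p ∈ PR j (J + a) := by
    intro p hp hpd
    have hpG : (p : ℤ) ∣ G := (Int.natCast_dvd_natCast.2 hpd).trans hdG
    have h1 : w < p := by
      by_contra hle
      have h2 : (p : ℤ) ∣ (w.factorial : ℤ) :=
        Int.natCast_dvd_natCast.2 (hp.dvd_factorial.2 (by omega))
      have h3 : (p : ℤ) ∣ u * w.factorial * t * (M * t - 1) :=
        Dvd.dvd.mul_right (Dvd.dvd.mul_right (Dvd.dvd.mul_left h2 _) _) _
      have h4 := dvd_sub h3 hpG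
      rw [hG, sub_sub_cancel] at h4
      exact (Nat.prime_iff_prime_int.1 hp).not_dvd_one h4
    rw [mem_PR]
    refine ⟨?_, ?_, hp⟩
    · by_contra hle
      exact g1 p (mem_PR.2 ⟨h1, by omega, hp⟩) r hr ((Int.natCast_dvd_natCast.2 hpd).trans hdf)
    · refine (Nat.le_of_dvd hd0 hpd).trans (hup.trans (le_of_eq (by ring)))
  by_cases hsq : Squarefree d
  · refine g2 r hr d.primeFactors ?_ ?_
    · refine mem_filter.2 ⟨mem_powerset.2 fun p hp => ?_, ?_⟩
      · exact hprime p (Nat.prime_of_mem_primeFactors hp) (Nat.dvd_of_mem_primeFactors hp)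
      · rw [Nat.prod_primeFactors_of_squarefree hsq]
        exact ⟨hlow, hup⟩
    · intro p hp
      exact (Int.natCast_dvd_natCast.2 (Nat.dvd_of_mem_primeFactors hp)).trans hdf
  · rw [Nat.squarefree_iff_prime_squarefree] at hsq
    push Not at hsq
    obtain ⟨p, hp, hpd⟩ := hsq
    refine g3 r hr p (hprime p hp ((dvd_mul_right p p).trans hpd)) ?_
    refine (Int.natCast_dvd_natCast.2 ?_).trans hdf
    rwa [pow_two]

end Pool.Agent.P.MP_58cc54_co
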