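import Mathlib
import Pool.Agent.P.MP_58cc54_co.UNT
import Pool.Agent.P.MP_58cc54_co.UGame
import Pool.Agent.P.MP_58cc54_co.Final

set_option autoImplicit false

namespace Pool.Agent.P.MP_58cc54_co

open Finset

lemma sum_alpha (v R x s : ℕ) (hs1 : 2 ≤ s) (hs2 : s ≤ v) :
    ∑ i ∈ Ico 1 s, (R ^ (i - 1) * x ^ (v - i)) * (R ^ (s - i - 1) * x ^ (v - (s - i)))
      ≤ v * (R ^ (s - 2) * (x ^ (v - s) * x ^ v)) := by
  refine (sum_le_sum (g := fun _ => R ^ (s - 2) * (x ^ (v - s) * x ^ v)) fun i hi => ?_).trans ?_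
  · rw [mem_Ico] at hi
    have e1 : s - 2 = (i - 1) + (s - i - 1) := by omega
    have e2 : (v - s) + v = (v - i) + (v - (s - i)) := by omega
    rw [e1, ← pow_add x, e2, pow_add, pow_add]
    exact le_of_eq (by ring)
  · rw [sum_const, Nat.card_Ico, smul_eq_mul]
    exact Nat.mul_le_mul_right _ (by omega)

lemma alpha_ok (v R x Q β s : ℕ) (hx : 1 ≤ x) (hQ : x ^ v ≤ Q * β) (hR : 2 * v * (1 + Q * v) ≤ R)
    (hs1 : 2 ≤ s) (hs2 : s ≤ v) :
    2 * s * (β + v * (R ^ (s - 2) * (x ^ (v - s) * x ^ v))) ≤ R ^ (s - 1) * x ^ (v - s) * β := by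
  have hR1 : 1 ≤ R := le_trans (Nat.mul_pos (by omega) (by omega)) hR
  have h1 : 1 ≤ R ^ (s - 2) * x ^ (v - s) := Nat.mul_pos (pow_pos hR1 _) (pow_pos hx _)
  have e1 : s - 1 = (s - 2) + 1 := by omega
  calc 2 * s * (β + v * (R ^ (s - 2) * (x ^ (v - s) * x ^ v)))
      ≤ 2 * v * ((R ^ (s - 2) * x ^ (v - s)) * β + v * (R ^ (s - 2) * (x ^ (v - s) * (Q * β)))) :=
        Nat.mul_le_mul (by omega) (add_le_add (Nat.le_mul_of_pos_left _ h1)
          (Nat.mul_le_mul_left _ (Nat.mul_le_mul_left _ (Nat.mul_le_mul_left _ hQ))))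
    _ = (2 * v * (1 + Q * v)) * (R ^ (s - 2) * x ^ (v - s) * β) := by ring
    _ ≤ R * (R ^ (s - 2) * x ^ (v - s) * β) := Nat.mul_le_mul_right _ hR
    _ = R ^ (s - 1) * x ^ (v - s) * β := by rw [e1, pow_succ]; ring

/-- For every connected graph H with a cycle and every c there are arbitrarily large n such that
Enforcer loses the strict H-game for every bias of at least c n^(v/(v-1)). -/
theorem cyc_gap {V : Type} [Fintype V] (H : SimpleGraph V) (hc : H.Connected) (hH : ¬ H.IsAcyclic)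
    (c : ℝ) (hc0 : 0 < c) (n₀ : ℕ) :
    ∃ n : ℕ, n₀ ≤ n ∧ ∀ b : ℕ,
      c * (n : ℝ) ^ ((Fintype.card V : ℝ) / ((Fintype.card V : ℝ) - 1)) ≤ b →
      ¬ ∃ S : Set (Finset (Sym2 (Fin n)) × Finset (Sym2 (Fin n))),
        ((∅ : Finset (Sym2 (Fin n))), (∅ : Finset (Sym2 (Fin n)))) ∈ S ∧
        ∀ p ∈ S,
          ((univ.filter (fun e : Sym2 (Fin n) => ¬ e.IsDiag)) \ (p.1 ∪ p.2) = ∅ →
            H.IsContained (SimpleGraph.fromEdgeSet (p.1 : Set (Sym2 (Fin n))))) ∧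
          ∀ e ∈ (univ.filter (fun e : Sym2 (Fin n) => ¬ e.IsDiag)) \ (p.1 ∪ p.2),
            ∃ T : Finset (Sym2 (Fin n)),
              T ⊆ (univ.filter (fun e : Sym2 (Fin n) => ¬ e.IsDiag)) \ (insert e (p.1 ∪ p.2)) ∧
              T.card = min b ((univ.filter (fun e : Sym2 (Fin n) => ¬ e.IsDiag)) \
                (insert e (p.1 ∪ p.2))).card ∧
              (insert e p.1, p.2 ∪ T) ∈ S := by
  have hv3 : 3 ≤ Fintype.card V := by
    by_contra hlt
    refine hH (SimpleGraph.IsAcyclic.of_card_le_two ?_)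
    rw [ENat.card_eq_coe_fintype_card]
    exact_mod_cast (by omega : Fintype.card V ≤ 2)
  obtain ⟨q, hq⟩ : ∃ q, q + 2 = Fintype.card V := ⟨Fintype.card V - 2, by omega⟩
  have hq1 : 1 ≤ q := by omega
  rw [← hq]
  set v := q + 2 with hv
  set Q := ⌈(2 : ℝ) ^ v / c⌉₊ + 1 with hQ
  set R := 2 * v * (1 + Q * v) with hR
  set K := (R ^ (v - 1)) ^ 2 with hK
  set R₀ := 2 * v * (1 + 1 * v) with hR₀
  set C₀ := v * R₀ + v * R₀ ^ (v - 2) with hC₀
  set C := Q ^ (q + 1) + (4 * C₀) ^ (q + 1) * (2 ^ (q + 1)) ^ v with hC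
  set x₀ := Q * (v * R + K) + 2 with hx₀
  obtain ⟨n, hn, hnt⟩ := nt_gen q K C (n₀ + 4 * K + 3 + x₀ ^ (q + 1)) hq1
  refine ⟨n, by omega, ?_⟩
  rintro b hb ⟨S, h0, hS⟩
  set U := univ.filter (fun e : Sym2 (Fin n) => ¬ e.IsDiag) with hU
  have hN := card_edges n
  rw [← hU] at hN
  have hex : ∃ x : ℕ, n ≤ x ^ (q + 1) := ⟨n, Nat.le_self_pow (by omega) _⟩
  obtain ⟨x, hx1, hx2, hx3⟩ : ∃ x : ℕ, n ≤ x ^ (q + 1) ∧ x₀ ≤ x ∧ x ^ (q + 1) ≤ 2 ^ (q + 1) * n := by
    have h1 := Nat.find_spec hex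
    have h2 : x₀ ≤ Nat.find hex := by
      by_contra hlt
      have := Nat.pow_le_pow_left (show Nat.find hex ≤ x₀ by omega) (q + 1)
      omega
    have h3 := Nat.find_min hex (m := Nat.find hex - 1) (by omega)
    refine ⟨Nat.find hex, h1, h2, ?_⟩
    calc Nat.find hex ^ (q + 1) ≤ (2 * (Nat.find hex - 1)) ^ (q + 1) :=
          Nat.pow_le_pow_left (by omega) _
      _ = 2 ^ (q + 1) * (Nat.find hex - 1) ^ (q + 1) := mul_pow _ _ _
      _ ≤ 2 ^ (q + 1) * n := Nat.mul_le_mul_left _ (by omega)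
  have hxpos : 1 ≤ x := by omega
  have hnpos : 0 < n := by omega
  have hxv : x ^ v ≤ Q * (b + 1) := by
    have hn0 : (0 : ℝ) < n := by exact_mod_cast hnpos
    set s : ℝ := (n : ℝ) ^ (((v : ℕ) : ℝ) / (((v : ℕ) : ℝ) - 1)) with hs
    have hs0 : 0 < s := Real.rpow_pos_of_pos hn0 _
    have hsq : s ^ (q + 1) = (n : ℝ) ^ v := by
      rw [hs, ← Real.rpow_natCast, ← Real.rpow_mul hn0.le, ← Real.rpow_natCast]
      congr 1
      rw [hv]
      push_cast
      have : ((q : ℝ) + 2 - 1) = q + 1 := by ring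
      rw [this]
      field_simp
    have a1 : ((x : ℝ) ^ v) ^ (q + 1) ≤ (2 ^ v * s) ^ (q + 1) := by
      have b1 : ((x : ℝ)) ^ (q + 1) ≤ 2 ^ (q + 1) * n := by exact_mod_cast hx3
      calc ((x : ℝ) ^ v) ^ (q + 1) = ((x : ℝ) ^ (q + 1)) ^ v := by rw [← pow_mul, ← pow_mul, mul_comm]
        _ ≤ (2 ^ (q + 1) * n) ^ v := pow_le_pow_left₀ (by positivity) b1 _
        _ = (2 ^ v * s) ^ (q + 1) := by
          rw [mul_pow, mul_pow, hsq, ← pow_mul, ← pow_mul, mul_comm v]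
    have a2 : (x : ℝ) ^ v ≤ 2 ^ v * s :=
      (pow_le_pow_iff_left₀ (by positivity) (by positivity) (by omega)).1 a1
    have a3 : (2 : ℝ) ^ v / c ≤ Q := by
      rw [hQ]; push_cast
      exact (Nat.le_ceil _).trans (by linarith)
    have a4 : (2 : ℝ) ^ v * s = 2 ^ v / c * (c * s) := by field_simp
    have a5 : (2 : ℝ) ^ v / c * (c * s) ≤ Q * (b + 1) :=
      mul_le_mul a3 (by linarith) (by positivity) (Nat.cast_nonneg _)
    have : (x : ℝ) ^ v ≤ Q * (b + 1) := by linarith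
    exact_mod_cast this
  have hUd : ∀ e ∈ U, ¬ e.IsDiag := fun e he => (mem_filter.1 he).2
  have hxx : x ^ (v - 2) ≤ x ^ v := Nat.pow_le_pow_right hxpos (by omega)
  -- a very large bias
  have hlt : b + 1 < C₀ * x ^ v := by
    by_contra hge
    have hge' : C₀ * x ^ v ≤ b + 1 := by omega
    have hR1 : 1 ≤ R₀ := Nat.mul_pos (by omega) (by omega)
    have hC1 : 1 ≤ C₀ := le_trans (Nat.mul_pos (by omega) hR1) (Nat.le_add_right _ _)
    have hxb : x ^ v ≤ 1 * (b + 1) := le_trans (Nat.le_mul_of_pos_left _ hC1) (by omega)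
    have hP : v * (R₀ * x ^ (v - 2)) + v * (R₀ ^ (v - 2) * x ^ v) ≤ b + 1 := by
      refine le_trans ?_ hge'
      rw [hC₀, add_mul (v * R₀), mul_assoc v R₀, mul_assoc v (R₀ ^ (v - 2))]
      exact add_le_add (Nat.mul_le_mul_left _ (Nat.mul_le_mul_left _ hxx)) le_rfl
    have hsum : ∀ s, 2 ≤ s → s ≤ v → ∑ i ∈ Ico 1 s,
        (if i = v then 0 else R₀ ^ (i - 1) * x ^ (v - i)) *
          (if s - i = v then 0 else R₀ ^ (s - i - 1) * x ^ (v - (s - i)))
        ≤ v * (R₀ ^ (s - 2) * (x ^ (v - s) * x ^ v)) := by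
      intro s h1 h2
      refine le_trans (le_of_eq (sum_congr rfl fun i hi => ?_)) (sum_alpha v R₀ x s h1 h2)
      rw [mem_Ico] at hi
      rw [if_neg (by omega), if_neg (by omega)]
    obtain ⟨m, r, _, h2, h3⟩ := ugame H hc hH v hq (by omega) n b U hUd S h0 hS
      (fun s => if s = v then 0 else R₀ ^ (s - 1) * x ^ (v - s))
      (fun s => if s = v then b + 1 else (b + 1) + v * (R₀ ^ (s - 2) * (x ^ (v - s) * x ^ v)))
      (by
        rw [if_neg (by omega)]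
        simpa [hv] using hx1)
      (by
        intro s h1 h2
        have h3 := hsum s h1 h2
        simp only [if_true]
        rw [if_neg (show ¬ 2 = v by omega)]
        simp only [show 2 - 1 = 1 by rfl, pow_one]
        by_cases hsv : s = v
        · rw [if_pos hsv]
          rw [hsv] at h3 ⊢
          rw [Nat.sub_self, pow_zero, one_mul] at h3
          omega
        · rw [if_neg hsv]
          omega)
      (by
        intro s h1 h2
        by_cases hsv : s = v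
        · exact Or.inl (by rw [if_pos hsv])
        · rw [if_neg hsv, if_neg hsv]
          exact Or.inr (alpha_ok v R₀ x 1 (b + 1) s hxpos hxb le_rfl h1 h2))
      (by
        simp only [if_true]
        rw [if_neg (show ¬ 2 = v by omega)]
        simp only [show 2 - 1 = 1 by rfl, pow_one]
        omega)
    simp only [if_true] at h3
    omega
  have hP : v * (R ^ (2 - 1) * x ^ (v - 2)) + (R ^ (v - 1) * x ^ (v - v)) ^ 2 ≤ b + 1 := by
    rw [Nat.sub_self, pow_zero, mul_one, ← hK, show 2 - 1 = 1 by rfl, pow_one]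
    refine Nat.le_of_mul_le_mul_left (c := Q) (le_trans ?_ hxv) (by omega)
    have h1 : 1 ≤ x ^ (v - 2) := Nat.one_le_pow _ _ hxpos
    calc Q * (v * (R * x ^ (v - 2)) + K) ≤ Q * (v * (R * x ^ (v - 2)) + K * x ^ (v - 2)) :=
          Nat.mul_le_mul_left _ (add_le_add le_rfl (Nat.le_mul_of_pos_right _ h1))
      _ = (Q * (v * R + K)) * x ^ (v - 2) := by ring
      _ ≤ x * x ^ (v - 2) := Nat.mul_le_mul_right _ (by omega)
      _ = x ^ (v - 2 + 1) := by ring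
      _ ≤ x ^ v := Nat.pow_le_pow_right hxpos (by omega)
  obtain ⟨m, r, hmr, hr1, hr2⟩ := ugame H hc hH v hq (by omega) n b U hUd S h0 hS
    (fun s => R ^ (s - 1) * x ^ (v - s))
    (fun s => (b + 1) + v * (R ^ (s - 2) * (x ^ (v - s) * x ^ v)))
    (by simpa [hv] using hx1)
    (fun s h1 h2 => add_le_add hP (sum_alpha v R x s h1 h2))
    (fun s h1 h2 => Or.inr (alpha_ok v R x Q (b + 1) s hxpos hxv le_rfl h1 h2)) hP
  rw [Nat.sub_self, pow_zero, mul_one, ← hK] at hr2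
  have hnn : (n * n) ^ (q + 1) = n ^ q * n ^ v := by rw [hv]; ring
  have hnv : 0 < n ^ v := pow_pos hnpos _
  have hxw : (x ^ v) ^ (q + 1) = (x ^ (q + 1)) ^ v := by rw [← pow_mul, ← pow_mul, mul_comm]
  refine hnt r m hr1 hr2 ?_ ?_ ?_
  · have a0 : (4 * K + 3) * n ≤ n * n := Nat.mul_le_mul_right _ (by omega)
    have a1 : K ≤ K * n := Nat.le_mul_of_pos_right _ hnpos
    have a2 : n * n ≤ 4 * (m * (b + 1)) := by
      have : (4 * K + 3) * n = 4 * (K * n) + 3 * n := by ring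
      omega
    have a3 : n * n ≤ 4 * C₀ * m * x ^ v := by
      calc n * n ≤ 4 * (m * (b + 1)) := a2
        _ ≤ 4 * (m * (C₀ * x ^ v)) := Nat.mul_le_mul_left _ (Nat.mul_le_mul_left _ hlt.le)
        _ = 4 * C₀ * m * x ^ v := by ring
    refine Nat.le_of_mul_le_mul_right ?_ hnv
    calc n ^ q * n ^ v = (n * n) ^ (q + 1) := hnn.symm
      _ ≤ (4 * C₀ * m * x ^ v) ^ (q + 1) := Nat.pow_le_pow_left a3 _
      _ = (4 * C₀) ^ (q + 1) * m ^ (q + 1) * (x ^ (q + 1)) ^ v := by rw [mul_pow, mul_pow, hxw]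
      _ ≤ (4 * C₀) ^ (q + 1) * m ^ (q + 1) * (2 ^ (q + 1) * n) ^ v :=
        Nat.mul_le_mul_left _ (Nat.pow_le_pow_left hx3 _)
      _ = ((4 * C₀) ^ (q + 1) * (2 ^ (q + 1)) ^ v) * m ^ (q + 1) * n ^ v := by
        rw [mul_pow (2 ^ (q + 1))]; ring
      _ ≤ C * m ^ (q + 1) * n ^ v :=
        Nat.mul_le_mul_right _ (Nat.mul_le_mul_right _ (Nat.le_add_left _ _))
  · have a1 : m * x ^ v ≤ Q * (n * n) := by
      calc m * x ^ v ≤ m * (Q * (b + 1)) := Nat.mul_le_mul_left _ hxv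
        _ = Q * (m * (b + 1)) := by ring
        _ ≤ Q * (n * n) := Nat.mul_le_mul_left _ (by omega)
    refine Nat.le_of_mul_le_mul_right ?_ hnv
    calc m ^ (q + 1) * n ^ v ≤ m ^ (q + 1) * (x ^ (q + 1)) ^ v :=
          Nat.mul_le_mul_left _ (Nat.pow_le_pow_left hx1 _)
      _ = (m * x ^ v) ^ (q + 1) := by rw [mul_pow, hxw]
      _ ≤ (Q * (n * n)) ^ (q + 1) := Nat.pow_le_pow_left a1 _
      _ = Q ^ (q + 1) * n ^ q * n ^ v := by rw [mul_pow, hnn, mul_assoc]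
      _ ≤ C * n ^ q * n ^ v :=
        Nat.mul_le_mul_right _ (Nat.mul_le_mul_right _ (Nat.le_add_right _ _))
  · refine ⟨2 * (b + 1), ?_⟩
    have a1 : 2 * (U.card : ℤ) + n = n * n := by exact_mod_cast hN
    have a2 : (U.card : ℤ) = m * (b + 1) + r := by exact_mod_cast hmr
    linear_combination -a1 + 2 * a2

end Pool.Agent.P.MP_58cc54_co
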